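import Mathlib

/-!
The fixed smooth profiles used in the construction, and their elementary properties.
-/

open Filter Topology Set
open scoped ContDiff

namespace Pool.Agent.H.MP_4efd05_mp

open Real

/-- `E m = m` for `|m| ≤ 1`, `E m = 0` for `m ^ 2 ≥ 2`. -/
noncomputable def E (m : ℝ) : ℝ := m * smoothTransition (2 - m ^ 2)

/-- `Z m = 0` for `m ^ 2 ≤ 3`, `Z m = 1` for `|m| ≥ 2`. -/
noncomputable def Z (m : ℝ) : ℝ := smoothTransition (m ^ 2 - 3)

/-- an even bump, positive exactly on `(-4, 4)`. -/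
noncomputable def G (m : ℝ) : ℝ := expNegInvGlue (16 - m ^ 2)

/-- a smooth odd step function. -/
noncomputable def St (m : ℝ) : ℝ := smoothTransition m - smoothTransition (-m)

/-- the derivative of the exponent profile `g`. -/
noncomputable def hh (kap lam m : ℝ) : ℝ := kap * (m * G m) + lam * St m

/-- the exponent profile. -/
noncomputable def gg (kap lam m : ℝ) : ℝ := ∫ s in (0:ℝ)..m, hh kap lam s

/-! ### Generalities on iterated derivatives of smooth functions -/

theorem contDiff_iter {f : ℝ → ℝ} (hf : ContDiff ℝ ∞ f) (k : ℕ) :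
    ContDiff ℝ ∞ (iteratedDeriv k f) := by
  rw [iteratedDeriv_eq_iterate]
  exact ContDiff.iterate_deriv k hf

theorem hasDerivAt_iter {f : ℝ → ℝ} (hf : ContDiff ℝ ∞ f) (k : ℕ) (x : ℝ) :
    HasDerivAt (iteratedDeriv k f) (iteratedDeriv (k + 1) f x) x := by
  rw [iteratedDeriv_succ]
  exact ((contDiff_iter hf k).differentiable (by simp) x).hasDerivAt

theorem iter_eq_zero_of_eventually {f : ℝ → ℝ} {c x : ℝ} (h : f =ᶠ[𝓝 x] fun _ => c) {k : ℕ}
    (hk : 1 ≤ k) : iteratedDeriv k f x = 0 := by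
  rw [h.iteratedDeriv_eq k]
  obtain ⟨j, rfl⟩ : ∃ j, k = j + 1 := ⟨k - 1, by omega⟩
  rw [iteratedDeriv_succ']
  have : deriv (fun _ : ℝ => c) = fun _ => 0 := by
    ext y
    simp
  rw [this]
  simp

/-! ### Smoothness -/

theorem contDiff_E : ContDiff ℝ ∞ E := by
  unfold E
  exact contDiff_id.mul (smoothTransition.contDiff.comp (contDiff_const.sub (contDiff_id.pow 2)))

theorem contDiff_Z : ContDiff ℝ ∞ Z := by
  unfold Z
  exact smoothTransition.contDiff.comp ((contDiff_id.pow 2).sub contDiff_const)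

theorem contDiff_G : ContDiff ℝ ∞ G := by
  unfold G
  exact expNegInvGlue.contDiff.comp (contDiff_const.sub (contDiff_id.pow 2))

theorem contDiff_St : ContDiff ℝ ∞ St := by
  unfold St
  exact smoothTransition.contDiff.sub (smoothTransition.contDiff.comp contDiff_neg)

theorem contDiff_hh (kap lam : ℝ) : ContDiff ℝ ∞ (hh kap lam) := by
  unfold hh
  exact (contDiff_const.mul (contDiff_id.mul contDiff_G)).add (contDiff_const.mul contDiff_St)

theorem hasDerivAt_gg (kap lam m : ℝ) : HasDerivAt (gg kap lam) (hh kap lam m) m := by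
  have hc : Continuous (hh kap lam) := (contDiff_hh kap lam).continuous
  exact intervalIntegral.integral_hasDerivAt_right (hc.intervalIntegrable _ _)
    (hc.stronglyMeasurableAtFilter _ _) hc.continuousAt

theorem contDiff_gg (kap lam : ℝ) : ContDiff ℝ ∞ (gg kap lam) := by
  rw [contDiff_infty_iff_deriv]
  refine ⟨fun m => (hasDerivAt_gg kap lam m).differentiableAt, ?_⟩
  have : deriv (gg kap lam) = hh kap lam := by
    ext m
    exact (hasDerivAt_gg kap lam m).deriv
  rw [this]
  exact contDiff_hh kap lam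

/-! ### Values -/

theorem E_eq_self {m : ℝ} (h : m ^ 2 ≤ 1) : E m = m := by
  unfold E
  rw [smoothTransition.one_of_one_le (by linarith), mul_one]

theorem E_eq_zero {m : ℝ} (h : 2 ≤ m ^ 2) : E m = 0 := by
  unfold E
  rw [smoothTransition.zero_of_nonpos (by linarith), mul_zero]

theorem abs_E_le (m : ℝ) : |E m| ≤ |m| := by
  unfold E
  rw [abs_mul, abs_of_nonneg (smoothTransition.nonneg _)]
  exact mul_le_of_le_one_right (abs_nonneg _) (smoothTransition.le_one _)

theorem Z_eq_zero {m : ℝ} (h : m ^ 2 ≤ 3) : Z m = 0 := by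
  unfold Z
  rw [smoothTransition.zero_of_nonpos (by linarith)]

theorem Z_eq_one {m : ℝ} (h : 4 ≤ m ^ 2) : Z m = 1 := by
  unfold Z
  rw [smoothTransition.one_of_one_le (by linarith)]

theorem Z_nonneg (m : ℝ) : 0 ≤ Z m := smoothTransition.nonneg _

theorem Z_le_one (m : ℝ) : Z m ≤ 1 := smoothTransition.le_one _

theorem Z_le_abs (m : ℝ) : Z m ≤ |m| := by
  rcases le_or_gt (m ^ 2) 3 with h | h
  · rw [Z_eq_zero h]
    exact abs_nonneg _
  · have h1 : 1 ≤ |m| := by
      by_contra hc
      push Not at hc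
      have : m ^ 2 < 1 := by
        rw [← sq_abs]
        nlinarith [abs_nonneg m]
      linarith
    exact (Z_le_one m).trans h1

theorem isOpen_lt_sq (c : ℝ) : IsOpen {m : ℝ | c < m ^ 2} :=
  isOpen_lt continuous_const (continuous_id.pow 2)

theorem isOpen_sq_lt (c : ℝ) : IsOpen {m : ℝ | m ^ 2 < c} :=
  isOpen_lt (continuous_id.pow 2) continuous_const

theorem E_iter_eq_zero {m : ℝ} (h : 2 < m ^ 2) {k : ℕ} (hk : 1 ≤ k) : iteratedDeriv k E m = 0 := by
  apply iter_eq_zero_of_eventually (c := 0) _ hk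
  filter_upwards [(isOpen_lt_sq 2).mem_nhds h] with y hy
  exact E_eq_zero (le_of_lt hy)

theorem Z_iter_eq_zero_left {m : ℝ} (h : m ^ 2 < 3) {k : ℕ} (hk : 1 ≤ k) :
    iteratedDeriv k Z m = 0 := by
  apply iter_eq_zero_of_eventually (c := 0) _ hk
  filter_upwards [(isOpen_sq_lt 3).mem_nhds h] with y hy
  exact Z_eq_zero (le_of_lt hy)

theorem Z_iter_eq_zero_right {m : ℝ} (h : 4 < m ^ 2) {k : ℕ} (hk : 1 ≤ k) :
    iteratedDeriv k Z m = 0 := by
  apply iter_eq_zero_of_eventually (c := 1) _ hk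
  filter_upwards [(isOpen_lt_sq 4).mem_nhds h] with y hy
  exact Z_eq_one (le_of_lt hy)

/-- the supports of the derivatives of `E` and `Z` are disjoint. -/
theorem E_mul_Z (m : ℝ) {j k : ℕ} (hj : 1 ≤ j) (hk : 1 ≤ k) :
    iteratedDeriv j E m * iteratedDeriv k Z m = 0 := by
  rcases lt_or_ge (m ^ 2) 3 with h | h
  · rw [Z_iter_eq_zero_left h hk, mul_zero]
  · rw [E_iter_eq_zero (by linarith) hj, zero_mul]

theorem E_one_eq {m : ℝ} (h : m ^ 2 < 1) : iteratedDeriv 1 E m = 1 := by
  rw [iteratedDeriv_one]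
  have : E =ᶠ[𝓝 m] fun y => y := by
    filter_upwards [(isOpen_sq_lt 1).mem_nhds h] with y hy
    exact E_eq_self (le_of_lt hy)
  rw [this.deriv_eq]
  simp

/-- each derivative of `E` is bounded. -/
theorem exists_bound_E (k : ℕ) : ∃ C : ℝ, 0 ≤ C ∧ ∀ m, |iteratedDeriv k E m| ≤ C := by
  have hc : ContinuousOn (iteratedDeriv k E) (Icc (-2) 2) :=
    (contDiff_iter contDiff_E k).continuous.continuousOn
  obtain ⟨C, hC⟩ := isCompact_Icc.exists_bound_of_continuousOn hc
  refine ⟨max C 0, le_max_right _ _, fun m => ?_⟩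
  rcases le_or_gt (m ^ 2) 4 with h | h
  · have : m ∈ Icc (-2:ℝ) 2 := ⟨by nlinarith, by nlinarith⟩
    exact (hC m this).trans (le_max_left _ _)
  · rcases Nat.eq_zero_or_pos k with rfl | hk
    · simp only [iteratedDeriv_zero]
      rw [E_eq_zero (by linarith), abs_zero]
      exact le_max_right _ _
    · rw [E_iter_eq_zero (by linarith) hk, abs_zero]
      exact le_max_right _ _

/-- each derivative of `Z` is bounded. -/
theorem exists_bound_Z (k : ℕ) : ∃ C : ℝ, 0 ≤ C ∧ ∀ m, |iteratedDeriv k Z m| ≤ C := by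
  have hc : ContinuousOn (iteratedDeriv k Z) (Icc (-3) 3) :=
    (contDiff_iter contDiff_Z k).continuous.continuousOn
  obtain ⟨C, hC⟩ := isCompact_Icc.exists_bound_of_continuousOn hc
  refine ⟨max C 1, le_max_of_le_right zero_le_one, fun m => ?_⟩
  rcases le_or_gt (m ^ 2) 9 with h | h
  · have : m ∈ Icc (-3:ℝ) 3 := ⟨by nlinarith, by nlinarith⟩
    exact (hC m this).trans (le_max_left _ _)
  · rcases Nat.eq_zero_or_pos k with rfl | hk
    · simp only [iteratedDeriv_zero]
      rw [Z_eq_one (by linarith), abs_one]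
      exact le_max_right _ _
    · rw [Z_iter_eq_zero_right (by linarith) hk, abs_zero]
      exact le_max_of_le_right zero_le_one

/-! ### The exponent profile -/

theorem G_nonneg (m : ℝ) : 0 ≤ G m := expNegInvGlue.nonneg _

theorem G_eq_zero {m : ℝ} (h : 16 ≤ m ^ 2) : G m = 0 :=
  expNegInvGlue.zero_of_nonpos (by linarith)

theorem G_neg (m : ℝ) : G (-m) = G m := by
  unfold G
  rw [neg_sq]

theorem St_neg (m : ℝ) : St (-m) = - St m := by
  unfold St
  rw [neg_neg]
  ring

theorem St_nonneg {m : ℝ} (h : 0 ≤ m) : 0 ≤ St m := by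
  unfold St
  rw [smoothTransition.zero_of_nonpos (by linarith : -m ≤ 0), sub_zero]
  exact smoothTransition.nonneg _

theorem St_le_one {m : ℝ} : St m ≤ 1 := by
  unfold St
  have h1 := smoothTransition.le_one m
  have h2 := smoothTransition.nonneg (-m)
  linarith

theorem St_eq_one {m : ℝ} (h : 1 ≤ m) : St m = 1 := by
  unfold St
  rw [smoothTransition.zero_of_nonpos (by linarith : -m ≤ 0), sub_zero,
    smoothTransition.one_of_one_le h]

theorem hh_neg (kap lam m : ℝ) : hh kap lam (-m) = - hh kap lam m := by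
  unfold hh
  rw [G_neg, St_neg]
  ring

theorem G_pos_three : 0 < G 3 := expNegInvGlue.pos_of_pos (by norm_num)

theorem G_three_le {m : ℝ} (h : |m| ≤ 3) : G 3 ≤ G m := by
  unfold G
  apply expNegInvGlue.monotone
  have : m ^ 2 ≤ 3 ^ 2 := by
    rw [← sq_abs]
    exact pow_le_pow_left₀ (abs_nonneg _) h 2
  linarith

/-- lower bound of the slope on `[-3, 3]`. -/
theorem hh_sq_ge {kap lam m : ℝ} (hk : 0 ≤ kap) (hl : 0 ≤ lam) (h : |m| ≤ 3) :
    (kap * G 3 * |m|) ^ 2 ≤ (hh kap lam m) ^ 2 := by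
  wlog hm : 0 ≤ m with H
  · have := H (m := -m) hk hl (by rwa [abs_neg]) (by linarith)
    rwa [abs_neg, hh_neg, neg_sq] at this
  rw [abs_of_nonneg hm]
  apply pow_le_pow_left₀ (mul_nonneg (mul_nonneg hk G_pos_three.le) hm)
  unfold hh
  have h1 := G_three_le h
  have h2 := St_nonneg hm
  have h3 : kap * G 3 * m ≤ kap * (m * G m) := by
    have : m * G 3 ≤ m * G m := mul_le_mul_of_nonneg_left h1 hm
    nlinarith
  nlinarith [mul_nonneg hl h2]

/-- the slope is constant far away. -/
theorem hh_far {kap lam m : ℝ} (h : 4 ≤ m) : hh kap lam m = lam := by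
  unfold hh
  rw [G_eq_zero (by nlinarith), St_eq_one (by linarith)]
  ring

theorem deriv_G_nonpos {m : ℝ} (h : 0 ≤ m) : deriv G m ≤ 0 := by
  have h1 : HasDerivAt G (deriv G m) m := (contDiff_G.differentiable (by simp) m).hasDerivAt
  have h2 : HasDerivAt G (deriv expNegInvGlue (16 - m ^ 2) * (-(2 * m))) m := by
    have h3 : HasDerivAt expNegInvGlue (deriv expNegInvGlue (16 - m ^ 2)) (16 - m ^ 2) :=
      ((expNegInvGlue.contDiff (n := ⊤)).differentiable (by simp) _).hasDerivAt
    have h4 : HasDerivAt (fun m : ℝ => 16 - m ^ 2) (-(2 * m)) m := by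
      simpa using (hasDerivAt_pow 2 m).const_sub 16
    exact h3.comp m h4
  rw [h1.unique h2]
  have h5 : 0 ≤ deriv expNegInvGlue (16 - m ^ 2) := expNegInvGlue.monotone.deriv_nonneg
  nlinarith

/-- the derivative of the slope. -/
theorem deriv_hh_le {kap lam m : ℝ} (hk : 0 ≤ kap) (h : 1 < m) :
    deriv (hh kap lam) m ≤ kap * G m := by
  have h1 : HasDerivAt G (deriv G m) m := (contDiff_G.differentiable (by simp) m).hasDerivAt
  have h2 : HasDerivAt St 0 m := by
    have : St =ᶠ[𝓝 m] fun _ => 1 := by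
      filter_upwards [lt_mem_nhds h] with y hy
      exact St_eq_one hy.le
    exact (hasDerivAt_const m (1:ℝ)).congr_of_eventuallyEq this
  have h3 : HasDerivAt (hh kap lam) (kap * (1 * G m + m * deriv G m) + lam * 0) m :=
    (((hasDerivAt_id' m).fun_mul h1).const_mul kap).fun_add (h2.const_mul lam)
  rw [h3.deriv]
  have h4 := deriv_G_nonpos (by linarith : (0:ℝ) ≤ m)
  have h5 : m * deriv G m ≤ 0 := mul_nonpos_of_nonneg_of_nonpos (by linarith) h4
  nlinarith

theorem deriv_hh_neg (kap lam m : ℝ) : deriv (hh kap lam) (-m) = deriv (hh kap lam) m := by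
  have h1 : hh kap lam = fun x => - hh kap lam (-x) := by
    ext x
    rw [hh_neg, neg_neg]
  have h2 : HasDerivAt (hh kap lam) (deriv (hh kap lam) (-m)) (-m) :=
    ((contDiff_hh kap lam).differentiable (by simp) _).hasDerivAt
  have h3 : HasDerivAt (fun x => - hh kap lam (-x)) (deriv (hh kap lam) (-m)) m := by
    have := (h2.comp m (hasDerivAt_neg m)).fun_neg
    simpa using this
  rw [← h1] at h3
  exact h3.deriv.symm

/-- positivity of the potential generated by the profile alone, away from `[-1, 1]`. -/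
theorem tail_nonneg {kap lam K m : ℝ} (hk : 0 ≤ kap) (hl : 0 < lam) (hK : 1 / (2 * lam) ≤ K)
    (h : 1 < |m|) :
    0 ≤ K ^ 2 * ((hh kap lam m) ^ 2 - lam ^ 2) - K * deriv (hh kap lam) m := by
  wlog hm : 0 ≤ m with H
  · have := H (m := -m) hk hl hK (by rwa [abs_neg]) (by linarith)
    rwa [hh_neg, neg_sq, deriv_hh_neg] at this
  rw [abs_of_nonneg hm] at h
  have hK0 : 0 < K := lt_of_lt_of_le (by positivity) hK
  have hKl : 1 ≤ 2 * lam * K := by
    rw [div_le_iff₀ (by positivity)] at hK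
    linarith
  have h1 := deriv_hh_le (lam := lam) hk h
  have h2 : hh kap lam m = kap * (m * G m) + lam := by
    unfold hh
    rw [St_eq_one h.le, mul_one]
  have hG := G_nonneg m
  have hkG : 0 ≤ kap * G m := mul_nonneg hk hG
  have h3 : 2 * lam * (kap * G m) ≤ (hh kap lam m) ^ 2 - lam ^ 2 := by
    rw [h2]
    have h5 : kap * G m ≤ kap * (m * G m) := by nlinarith
    nlinarith [sq_nonneg (kap * (m * G m))]
  have h4 : K * deriv (hh kap lam) m ≤ K * (kap * G m) := mul_le_mul_of_nonneg_left h1 hK0.le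
  have h6 : K ^ 2 * (2 * lam * (kap * G m)) ≤ K ^ 2 * ((hh kap lam m) ^ 2 - lam ^ 2) :=
    mul_le_mul_of_nonneg_left h3 (by positivity)
  have h7 : K * (kap * G m) ≤ K ^ 2 * (2 * lam * (kap * G m)) := by
    have : K * (kap * G m) * 1 ≤ K * (kap * G m) * (2 * lam * K) :=
      mul_le_mul_of_nonneg_left hKl (mul_nonneg hK0.le hkG)
    nlinarith
  linarith

end Pool.Agent.H.MP_4efd05_mp
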