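import Pool.Agent.H.MP_4efd05_mp.Flow
import Pool.Agent.H.MP_4efd05_mp.Profile

/-!
The explicit Lagrangian flow, the phase and modulus of the wave function, and the Schroedinger
equation.
-/

open Filter Topology Set
open scoped ContDiff

namespace Pool.Agent.H.MP_4efd05_mp

open Real

noncomputable def ca (A φ : ℝ) : ℝ := A * cos φ
noncomputable def cb (A φ : ℝ) : ℝ := A ^ 2 / 16 * cos (2 * φ)
noncomputable def da (A φ : ℝ) : ℝ := -(A * sin φ)
noncomputable def db (A φ : ℝ) : ℝ := -(A ^ 2 / 8 * sin (2 * φ))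

noncomputable def X (A m φ : ℝ) : ℝ :=
  m + ca A φ * iteratedDeriv 1 E m + cb A φ * iteratedDeriv 1 Z m
noncomputable def X1 (A m φ : ℝ) : ℝ :=
  1 + ca A φ * iteratedDeriv 2 E m + cb A φ * iteratedDeriv 2 Z m
noncomputable def X2 (A m φ : ℝ) : ℝ :=
  ca A φ * iteratedDeriv 3 E m + cb A φ * iteratedDeriv 3 Z m
noncomputable def X3 (A m φ : ℝ) : ℝ :=
  ca A φ * iteratedDeriv 4 E m + cb A φ * iteratedDeriv 4 Z m
noncomputable def Xp (A m φ : ℝ) : ℝ :=
  da A φ * iteratedDeriv 1 E m + db A φ * iteratedDeriv 1 Z m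
noncomputable def Xp1 (A m φ : ℝ) : ℝ :=
  da A φ * iteratedDeriv 2 E m + db A φ * iteratedDeriv 2 Z m

/-- the phase (up to the factor `K`). -/
noncomputable def Th (A m φ : ℝ) : ℝ :=
  (da A φ * E m + db A φ * (Z m - 1) + ca A φ * da A φ * (iteratedDeriv 1 E m) ^ 2 / 2
    + cb A φ * db A φ * (iteratedDeriv 1 Z m) ^ 2 / 2) / 2

/-- the derivative of the phase with respect to `φ`. -/
noncomputable def Thp (A m φ : ℝ) : ℝ :=
  (-(ca A φ) * E m + -(4 * cb A φ) * (Z m - 1)
    + (da A φ * da A φ + ca A φ * -(ca A φ)) * (iteratedDeriv 1 E m) ^ 2 / 2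
    + (db A φ * db A φ + cb A φ * -(4 * cb A φ)) * (iteratedDeriv 1 Z m) ^ 2 / 2) / 2

theorem hasDerivAt_ca (A φ : ℝ) : HasDerivAt (ca A) (da A φ) φ := by
  have := (hasDerivAt_cos φ).const_mul A
  unfold ca da
  refine this.congr_deriv ?_
  ring

theorem hasDerivAt_cb (A φ : ℝ) : HasDerivAt (cb A) (db A φ) φ := by
  have h := ((hasDerivAt_cos (2 * φ)).comp φ ((hasDerivAt_id' φ).const_mul 2)).const_mul (A ^ 2 / 16)
  unfold cb db
  refine h.congr_deriv ?_
  ring

theorem hasDerivAt_da (A φ : ℝ) : HasDerivAt (da A) (-(ca A φ)) φ := by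
  have := ((hasDerivAt_sin φ).const_mul A).fun_neg
  unfold ca da
  exact this

theorem hasDerivAt_db (A φ : ℝ) : HasDerivAt (db A) (-(4 * cb A φ)) φ := by
  have h := (((hasDerivAt_sin (2 * φ)).comp φ
    ((hasDerivAt_id' φ).const_mul 2)).const_mul (A ^ 2 / 8)).fun_neg
  unfold cb db
  refine h.congr_deriv ?_
  ring

section curve

variable {A : ℝ} {y p : ℝ → ℝ} {d e s : ℝ}

theorem curve_iter {f : ℝ → ℝ} (hf : ContDiff ℝ ∞ f) (k : ℕ) (hy : HasDerivAt y d s) :
    HasDerivAt (fun s => iteratedDeriv k f (y s)) (iteratedDeriv (k + 1) f (y s) * d) s :=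
  (hasDerivAt_iter hf k (y s)).comp s hy

theorem curve_E (k : ℕ) (hy : HasDerivAt y d s) :
    HasDerivAt (fun s => iteratedDeriv k E (y s)) (iteratedDeriv (k + 1) E (y s) * d) s :=
  curve_iter contDiff_E k hy

theorem curve_Z (k : ℕ) (hy : HasDerivAt y d s) :
    HasDerivAt (fun s => iteratedDeriv k Z (y s)) (iteratedDeriv (k + 1) Z (y s) * d) s :=
  curve_iter contDiff_Z k hy

theorem curve_ca (hp : HasDerivAt p e s) : HasDerivAt (fun s => ca A (p s)) (da A (p s) * e) s :=
  (hasDerivAt_ca A (p s)).comp s hp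

theorem curve_cb (hp : HasDerivAt p e s) : HasDerivAt (fun s => cb A (p s)) (db A (p s) * e) s :=
  (hasDerivAt_cb A (p s)).comp s hp

theorem curve_da (hp : HasDerivAt p e s) : HasDerivAt (fun s => da A (p s)) (-(ca A (p s)) * e) s :=
  (hasDerivAt_da A (p s)).comp s hp

theorem curve_db (hp : HasDerivAt p e s) :
    HasDerivAt (fun s => db A (p s)) (-(4 * cb A (p s)) * e) s :=
  (hasDerivAt_db A (p s)).comp s hp

theorem curve_X (hy : HasDerivAt y d s) (hp : HasDerivAt p e s) :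
    HasDerivAt (fun s => X A (y s) (p s)) (X1 A (y s) (p s) * d + Xp A (y s) (p s) * e) s := by
  have h := (hy.fun_add ((curve_ca (A := A) hp).fun_mul (curve_E 1 hy))).fun_add
    ((curve_cb (A := A) hp).fun_mul (curve_Z 1 hy))
  unfold X
  refine h.congr_deriv ?_
  unfold X1 Xp
  ring

theorem curve_X1 (hy : HasDerivAt y d s) (hp : HasDerivAt p e s) :
    HasDerivAt (fun s => X1 A (y s) (p s)) (X2 A (y s) (p s) * d + Xp1 A (y s) (p s) * e) s := by
  have h := ((hasDerivAt_const s (1:ℝ)).fun_add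
    ((curve_ca (A := A) hp).fun_mul (curve_E 2 hy))).fun_add
    ((curve_cb (A := A) hp).fun_mul (curve_Z 2 hy))
  unfold X1
  refine h.congr_deriv ?_
  unfold X2 Xp1
  ring

theorem curve_X2 (hy : HasDerivAt y d s) {q : ℝ} :
    HasDerivAt (fun s => X2 A (y s) q) (X3 A (y s) q * d) s := by
  have h := ((curve_E 3 hy).const_mul (ca A q)).fun_add ((curve_Z 3 hy).const_mul (cb A q))
  unfold X2
  refine h.congr_deriv ?_
  unfold X3
  ring

theorem curve_Xp (hy : HasDerivAt y d s) {q : ℝ} :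
    HasDerivAt (fun s => Xp A (y s) q) (Xp1 A (y s) q * d) s := by
  have h := ((curve_E 1 hy).const_mul (da A q)).fun_add ((curve_Z 1 hy).const_mul (db A q))
  unfold Xp
  refine h.congr_deriv ?_
  unfold Xp1
  ring

theorem curve_Th (hy : HasDerivAt y d s) (hp : HasDerivAt p e s) :
    HasDerivAt (fun s => Th A (y s) (p s))
      (Xp A (y s) (p s) * X1 A (y s) (p s) / 2 * d + Thp A (y s) (p s) * e) s := by
  have hE0 : HasDerivAt (fun s => E (y s)) (iteratedDeriv 1 E (y s) * d) s := by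
    have := curve_E 0 hy
    simpa using this
  have hZ0 : HasDerivAt (fun s => Z (y s)) (iteratedDeriv 1 Z (y s) * d) s := by
    have := curve_Z 0 hy
    simpa using this
  have h := ((((curve_da (A := A) hp).fun_mul hE0).fun_add
    ((curve_db (A := A) hp).fun_mul (hZ0.sub_const 1))).fun_add
    ((((curve_ca (A := A) hp).fun_mul (curve_da (A := A) hp)).fun_mul
      ((curve_E 1 hy).fun_pow 2)).div_const 2)).fun_add
    ((((curve_cb (A := A) hp).fun_mul (curve_db (A := A) hp)).fun_mul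
      ((curve_Z 1 hy).fun_pow 2)).div_const 2)
  have h' := h.div_const 2
  unfold Th
  refine h'.congr_deriv ?_
  have e1 := E_mul_Z (y s) (j := 1) (k := 2) le_rfl (by norm_num)
  have e2 := E_mul_Z (y s) (j := 2) (k := 1) (by norm_num) le_rfl
  unfold Xp X1 Thp
  simp only [Nat.cast_ofNat, Nat.add_one_sub_one, pow_one, Nat.reduceAdd]
  linear_combination (-(d * da A (p s) * cb A (p s) / 2)) * e1
    - (d * db A (p s) * ca A (p s) / 2) * e2

end curve

/-! ### The wave function in Lagrangian coordinates -/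

variable (A K kap lam : ℝ)

/-- logarithm of the modulus. -/
noncomputable def S0 (m φ : ℝ) : ℝ := -(K * gg kap lam m) - log (X1 A m φ) / 2
noncomputable def S1 (m φ : ℝ) : ℝ := -(K * hh kap lam m) - X2 A m φ / (2 * X1 A m φ)
noncomputable def S2 (m φ : ℝ) : ℝ :=
  -(K * deriv (hh kap lam) m) - X3 A m φ / (2 * X1 A m φ) + X2 A m φ ^ 2 / (2 * X1 A m φ ^ 2)

/-- the potential in Lagrangian coordinates. -/
noncomputable def VL (m φ : ℝ) : ℝ :=
  -(K ^ 2 * lam ^ 2) - K ^ 2 * Thp A m φ + K ^ 2 * Xp A m φ ^ 2 / 4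
    + (S2 A K kap lam m φ - S1 A K kap lam m φ * X2 A m φ / X1 A m φ
      + S1 A K kap lam m φ ^ 2) / X1 A m φ ^ 2

section curve2

variable {A K kap lam} {y p : ℝ → ℝ} {d e s : ℝ}

theorem curve_S0 (hy : HasDerivAt y d s) (hp : HasDerivAt p e s)
    (hpos : 0 < X1 A (y s) (p s)) :
    HasDerivAt (fun s => S0 A K kap lam (y s) (p s))
      (S1 A K kap lam (y s) (p s) * d - Xp1 A (y s) (p s) / (2 * X1 A (y s) (p s)) * e) s := by
  have h1 : HasDerivAt (fun s => gg kap lam (y s)) (hh kap lam (y s) * d) s :=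
    (hasDerivAt_gg kap lam (y s)).comp s hy
  have h2 := (curve_X1 (A := A) hy hp).log hpos.ne'
  have h := ((h1.const_mul K).fun_neg).fun_sub (h2.div_const 2)
  unfold S0
  refine h.congr_deriv ?_
  unfold S1
  field_simp
  ring

theorem curve_S1 (hy : HasDerivAt y d s) {q : ℝ} (hpos : 0 < X1 A (y s) q) :
    HasDerivAt (fun s => S1 A K kap lam (y s) q) (S2 A K kap lam (y s) q * d) s := by
  have h1 : HasDerivAt (fun s => hh kap lam (y s)) (deriv (hh kap lam) (y s) * d) s :=
    (((contDiff_hh kap lam).differentiable (by simp) (y s)).hasDerivAt).comp s hy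
  have hX1 : HasDerivAt (fun s => X1 A (y s) q) (X2 A (y s) q * d) s := by
    have := curve_X1 (A := A) hy (hasDerivAt_const s q)
    simpa using this
  have h2 := (curve_X2 (A := A) (q := q) hy).fun_div (hX1.const_mul 2)
    (by positivity : (2 * X1 A (y s) q) ≠ 0)
  have h := ((h1.const_mul K).fun_neg).fun_sub h2
  unfold S1
  refine h.congr_deriv ?_
  unfold S2
  field_simp
  ring

end curve2

end Pool.Agent.H.MP_4efd05_mp
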