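import Mathlib

/-!
Global smooth inverse of a one-parameter family of increasing diffeomorphisms of the line.
-/

open Filter Topology Set
open scoped ContDiff

namespace Pool.Agent.H.MP_4efd05_mp

/-- A family `X · φ` of maps of the line with derivative at least `1/2` has a jointly smooth
family of inverses. -/
theorem exists_smooth_inverse (X Xm Xp : ℝ → ℝ → ℝ)
    (hX : ContDiff ℝ ∞ (fun p : ℝ × ℝ => X p.1 p.2))
    (hm : ∀ m φ, HasDerivAt (fun m => X m φ) (Xm m φ) m)
    (hp : ∀ m φ, HasDerivAt (fun φ => X m φ) (Xp m φ) φ)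
    (hpos : ∀ m φ, 1 / 2 ≤ Xm m φ) :
    ∃ Y : ℝ → ℝ → ℝ, ContDiff ℝ ∞ (fun p : ℝ × ℝ => Y p.1 p.2) ∧
      (∀ x φ, X (Y x φ) φ = x) ∧ (∀ m φ, Y (X m φ) φ = m) := by
  have hmono0 : ∀ φ, Monotone (fun m => X m φ - m / 2) := by
    intro φ
    apply monotone_of_hasDerivAt_nonneg (f' := fun m => Xm m φ - 1 / 2)
    · intro m
      exact (hm m φ).fun_sub ((hasDerivAt_id' m).div_const 2)
    · intro m
      have := hpos m φ
      simp only [Pi.zero_apply]
      linarith
  have hlip : ∀ φ m m', |m - m'| ≤ 2 * |X m φ - X m' φ| := by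
    have key : ∀ φ m m', m' ≤ m → |m - m'| ≤ 2 * |X m φ - X m' φ| := by
      intro φ m m' h
      have h1 := hmono0 φ h
      simp only at h1
      have h2 : 0 ≤ X m φ - X m' φ := by linarith
      rw [abs_of_nonneg (by linarith : (0:ℝ) ≤ m - m'), abs_of_nonneg h2]
      linarith
    intro φ m m'
    rcases le_total m' m with h | h
    · exact key φ m m' h
    · rw [abs_sub_comm, abs_sub_comm (X m φ)]
      exact key φ m' m h
  have hinj : ∀ φ, Function.Injective (fun m => X m φ) := by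
    intro φ m m' h
    have := hlip φ m m'
    simp only at h
    rw [h, sub_self, abs_zero, mul_zero] at this
    have h3 := abs_nonpos_iff.mp this
    linarith
  have hcont : ∀ φ, Continuous (fun m => X m φ) := fun φ =>
    continuous_iff_continuousAt.2 fun m => (hm m φ).continuousAt
  have hsurj : ∀ φ, Function.Surjective (fun m => X m φ) := by
    intro φ
    apply (hcont φ).surjective
    · have h1 : Tendsto (fun m : ℝ => X 0 φ + m / 2) atTop atTop :=
        tendsto_atTop_add_const_left _ _ (tendsto_id.atTop_div_const (by norm_num))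
      apply tendsto_atTop_mono' _ _ h1
      filter_upwards [eventually_ge_atTop (0:ℝ)] with m hm0
      have := hmono0 φ hm0
      simp only at this
      linarith
    · have h1 : Tendsto (fun m : ℝ => X 0 φ + m / 2) atBot atBot :=
        tendsto_atBot_add_const_left _ _ (tendsto_id.atBot_div_const (by norm_num))
      apply tendsto_atBot_mono' _ _ h1
      filter_upwards [eventually_le_atBot (0:ℝ)] with m hm0
      have := hmono0 φ hm0
      simp only at this
      linarith
  choose Y hY using hsurj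
  have hY' : ∀ x φ, X (Y φ x) φ = x := fun x φ => hY φ x
  have hYl : ∀ m φ, Y φ (X m φ) = m := fun m φ => hinj φ (hY' _ _)
  have hXc : Continuous (fun p : ℝ × ℝ => X p.1 p.2) := hX.continuous
  have hYc : Continuous (fun p : ℝ × ℝ => Y p.2 p.1) := by
    rw [continuous_iff_continuousAt]
    rintro ⟨x₀, φ₀⟩
    rw [ContinuousAt, tendsto_iff_norm_sub_tendsto_zero]
    have hb : Tendsto (fun p : ℝ × ℝ => 2 * |p.1 - X (Y φ₀ x₀) p.2|) (𝓝 (x₀, φ₀)) (𝓝 0) := by
      have : Continuous (fun p : ℝ × ℝ => 2 * |p.1 - X (Y φ₀ x₀) p.2|) := by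
        have h1 : Continuous (fun p : ℝ × ℝ => X (Y φ₀ x₀) p.2) :=
          hXc.comp (continuous_const.prodMk continuous_snd)
        exact continuous_const.mul (continuous_fst.sub h1).abs
      have h2 := this.tendsto (x₀, φ₀)
      simpa [hY'] using h2
    refine squeeze_zero (fun _ => norm_nonneg _) ?_ hb
    rintro ⟨x, φ⟩
    have := hlip φ (Y φ x) (Y φ₀ x₀)
    rw [hY'] at this
    simpa [Real.norm_eq_abs] using this
  let Φ : (ℝ × ℝ) ≃ₜ (ℝ × ℝ) :=
    { toFun := fun p => (X p.1 p.2, p.2)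
      invFun := fun p => (Y p.2 p.1, p.2)
      left_inv := fun p => by simp [hYl]
      right_inv := fun p => by simp [hY']
      continuous_toFun := hXc.prodMk continuous_snd
      continuous_invFun := hYc.prodMk continuous_snd }
  have hΦ : ContDiff ℝ ∞ (Φ : ℝ × ℝ → ℝ × ℝ) := hX.prodMk contDiff_snd
  -- the derivative of Φ at a point is invertible
  have hder : ∀ p : ℝ × ℝ, ∃ L : (ℝ × ℝ) ≃L[ℝ] (ℝ × ℝ), HasFDerivAt Φ (L : (ℝ × ℝ) →L[ℝ] (ℝ × ℝ)) p := by
    rintro ⟨m, φ⟩
    have hd : HasFDerivAt Φ (fderiv ℝ Φ (m, φ)) (m, φ) :=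
      (hΦ.differentiable (by simp) (m, φ)).hasFDerivAt
    set D := fderiv ℝ Φ (m, φ) with hD
    have hD1 : D (1, 0) = (Xm m φ, 0) := by
      have h1 : HasDerivAt (fun s : ℝ => Φ (s, φ)) (D (1, 0)) m := by
        have h0 : HasDerivAt (fun s : ℝ => (s, φ)) ((1:ℝ), (0:ℝ)) m :=
          (hasDerivAt_id m).prodMk (hasDerivAt_const m φ)
        exact hd.comp_hasDerivAt m h0
      have h2 : HasDerivAt (fun s : ℝ => Φ (s, φ)) (Xm m φ, 0) m :=
        (hm m φ).prodMk (hasDerivAt_const m φ)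
      exact h1.unique h2
    have hD2 : D (0, 1) = (Xp m φ, 1) := by
      have h1 : HasDerivAt (fun s : ℝ => Φ (m, s)) (D (0, 1)) φ := by
        have h0 : HasDerivAt (fun s : ℝ => (m, s)) ((0:ℝ), (1:ℝ)) φ :=
          (hasDerivAt_const φ m).prodMk (hasDerivAt_id φ)
        exact hd.comp_hasDerivAt φ h0
      have h2 : HasDerivAt (fun s : ℝ => Φ (m, s)) (Xp m φ, 1) φ :=
        (hp m φ).prodMk (hasDerivAt_id φ)
      exact h1.unique h2
    have hDv : ∀ v : ℝ × ℝ, D v = (v.1 * Xm m φ + v.2 * Xp m φ, v.2) := by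
      rintro ⟨a, b⟩
      have : ((a, b) : ℝ × ℝ) = a • ((1, 0) : ℝ × ℝ) + b • ((0, 1) : ℝ × ℝ) := by simp
      rw [this, map_add, map_smul, map_smul, hD1, hD2]
      simp
    have hXm0 : Xm m φ ≠ 0 := by have := hpos m φ; intro h; rw [h] at this; norm_num at this
    let Dinv : (ℝ × ℝ) →L[ℝ] (ℝ × ℝ) :=
      ((Xm m φ)⁻¹ • (ContinuousLinearMap.fst ℝ ℝ ℝ - Xp m φ • ContinuousLinearMap.snd ℝ ℝ ℝ)).prod
        (ContinuousLinearMap.snd ℝ ℝ ℝ)
    refine ⟨ContinuousLinearEquiv.equivOfInverse D Dinv ?_ ?_, ?_⟩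
    · intro v
      rw [hDv]
      ext
      · simp [Dinv]
        field_simp
        ring
      · simp [Dinv]
    · intro v
      rw [hDv]
      ext
      · simp [Dinv]
        field_simp
        ring
      · simp [Dinv]
    · exact hd
  choose L hL using hder
  have hs := Φ.contDiff_symm hL hΦ
  refine ⟨fun x φ => Y φ x, ?_, hY', hYl⟩
  exact contDiff_fst.comp hs

end Pool.Agent.H.MP_4efd05_mp
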