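import Mathlib

/-!
Square integrability facts for functions dominated by `C / (1 + x ^ 2) ^ 2`.
-/

open Filter Topology Set MeasureTheory
open scoped ContDiff ENNReal

namespace Pool.Agent.H.MP_4efd05_mp

theorem memLp_weight (C : ℝ) : MemLp (fun x : ℝ => C / (1 + x ^ 2)) 2 volume := by
  have hc : Continuous (fun x : ℝ => C / (1 + x ^ 2)) :=
    continuous_const.div (continuous_const.add (continuous_id.pow 2)) (fun x => by positivity)
  rw [memLp_two_iff_integrable_sq hc.aestronglyMeasurable]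
  refine (integrable_inv_one_add_sq.const_mul (C ^ 2)).mono' (hc.pow 2).aestronglyMeasurable ?_
  filter_upwards with x
  rw [Real.norm_eq_abs, abs_of_nonneg (by positivity), div_pow, div_eq_mul_inv]
  apply mul_le_mul_of_nonneg_left _ (by positivity)
  apply inv_anti₀ (by positivity)
  nlinarith [sq_nonneg x]

theorem memLp_of_bound {f : ℝ → ℂ} (hf : Continuous f) {C : ℝ} (hC : 0 ≤ C)
    (h : ∀ x, ‖f x‖ ≤ C / (1 + x ^ 2) ^ 2) : MemLp f 2 volume := by
  refine (memLp_weight C).mono hf.aestronglyMeasurable ?_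
  filter_upwards with x
  refine (h x).trans ?_
  rw [Real.norm_eq_abs, abs_of_nonneg (by positivity)]
  apply div_le_div_of_nonneg_left hC (by positivity)
  nlinarith [sq_nonneg x]

/-- uniform weighted bound. -/
theorem exists_weighted_bound {ψ : ℝ → ℝ → ℂ} {C : ℝ} (hC : 0 ≤ C)
    (h : ∀ x t, ‖ψ x t‖ ≤ C / (1 + x ^ 2) ^ 2) :
    ∃ C' : ℝ, ∀ t, eLpNorm (fun x : ℝ => ((1 + x ^ 2) ^ ((1:ℝ) / 2) : ℝ) • ψ x t) 2 volume
      ≤ ENNReal.ofReal C' := by
  refine ⟨(eLpNorm (fun x : ℝ => C / (1 + x ^ 2)) 2 volume).toReal, fun t => ?_⟩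
  rw [ENNReal.ofReal_toReal (memLp_weight C).2.ne]
  apply eLpNorm_mono
  intro x
  have h1 : (0:ℝ) < 1 + x ^ 2 := by positivity
  rw [norm_smul, Real.norm_eq_abs, abs_of_nonneg (by positivity), Real.norm_eq_abs,
    abs_of_nonneg (by positivity)]
  have h2 : (1 + x ^ 2) ^ ((1:ℝ) / 2) ≤ 1 + x ^ 2 := by
    calc (1 + x ^ 2) ^ ((1:ℝ) / 2) ≤ (1 + x ^ 2) ^ (1:ℝ) := by
          apply Real.rpow_le_rpow_of_exponent_le _ (by norm_num)
          nlinarith [sq_nonneg x]
      _ = 1 + x ^ 2 := Real.rpow_one _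
  calc (1 + x ^ 2) ^ ((1:ℝ) / 2) * ‖ψ x t‖ ≤ (1 + x ^ 2) * (C / (1 + x ^ 2) ^ 2) :=
        mul_le_mul h2 (h x t) (norm_nonneg _) h1.le
    _ = C / (1 + x ^ 2) := by
        field_simp

/-- continuity in time with values in `L ^ 2`. -/
theorem tendsto_L2 {ψ : ℝ → ℝ → ℂ} (hψ : Continuous (fun p : ℝ × ℝ => ψ p.1 p.2)) {C : ℝ}
    (hC : 0 ≤ C) (h : ∀ x t, ‖ψ x t‖ ≤ C / (1 + x ^ 2) ^ 2) (t₀ : ℝ) :
    Tendsto (fun t => eLpNorm (fun x => ψ x t - ψ x t₀) 2 volume) (𝓝 t₀) (𝓝 0) := by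
  have hlim : Tendsto (fun t => ∫⁻ x, ‖ψ x t - ψ x t₀‖ₑ ^ (2:ℝ)) (𝓝 t₀)
      (𝓝 (∫⁻ _ : ℝ, (0:ℝ≥0∞))) := by
    apply tendsto_lintegral_filter_of_dominated_convergence
      (fun x : ℝ => ‖2 * C / (1 + x ^ 2)‖ₑ ^ (2:ℝ))
    · filter_upwards with t
      have h1 : Continuous (fun x => ψ x t - ψ x t₀) :=
        (hψ.comp (continuous_id.prodMk continuous_const)).sub
          (hψ.comp (continuous_id.prodMk continuous_const))
      exact (h1.enorm.measurable).pow_const _
    · filter_upwards with t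
      filter_upwards with x
      apply ENNReal.rpow_le_rpow _ (by norm_num)
      rw [enorm_le_iff_norm_le]
      refine (norm_sub_le _ _).trans ?_
      have h1 := h x t
      have h2 := h x t₀
      rw [Real.norm_eq_abs, abs_of_nonneg (by positivity)]
      have h3 : C / (1 + x ^ 2) ^ 2 ≤ C / (1 + x ^ 2) := by
        apply div_le_div_of_nonneg_left hC (by positivity)
        nlinarith [sq_nonneg x]
      have h4 : 2 * C / (1 + x ^ 2) = C / (1 + x ^ 2) + C / (1 + x ^ 2) := by ring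
      rw [h4]
      linarith
    · have h1 := (memLp_weight (2 * C)).2
      rw [eLpNorm_lt_top_iff_lintegral_rpow_enorm_lt_top (by norm_num) (by norm_num)] at h1
      simpa using h1.ne
    · filter_upwards with x
      have h1 : Continuous (fun t => ψ x t) := hψ.comp (continuous_const.prodMk continuous_id)
      have h2 : Tendsto (fun t => ψ x t - ψ x t₀) (𝓝 t₀) (𝓝 0) := by
        have h8 : Continuous (fun t => ψ x t - ψ x t₀) := h1.sub continuous_const
        have := h8.tendsto t₀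
        rwa [sub_self] at this
      have h3 := (ENNReal.continuous_rpow_const (y := 2)).tendsto (0:ℝ≥0∞)
      have h4 : Tendsto (fun t => ‖ψ x t - ψ x t₀‖ₑ) (𝓝 t₀) (𝓝 0) := by
        have := h2.enorm
        simpa using this
      have h5 := h3.comp h4
      simpa [Function.comp_def] using h5
  rw [lintegral_zero] at hlim
  have h6 := ((ENNReal.continuous_rpow_const (y := 1 / 2)).tendsto (0:ℝ≥0∞)).comp hlim
  have h7 : ∀ t, eLpNorm (fun x => ψ x t - ψ x t₀) 2 volume
      = (∫⁻ x, ‖ψ x t - ψ x t₀‖ₑ ^ (2:ℝ)) ^ ((1:ℝ) / 2) := by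
    intro t
    rw [eLpNorm_eq_lintegral_rpow_enorm_toReal (by norm_num) (by norm_num)]
    simp
  simp only [h7]
  simpa [Function.comp_def] using h6

end Pool.Agent.H.MP_4efd05_mp
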