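import Mathlib

/-!
# No `L²` eigenfunctions for `-d²/dx² + v`, `v ≥ 0` bounded, continuous, compactly supported

Everything is stated in the sense of distributions, so that it covers every eigenfunction
(the domain of the self-adjoint operator is `{u ∈ L² : -u'' + v u ∈ L²}`).
-/

namespace Pool.Agent.H.MP_4efd05_mp

open MeasureTheory Set Filter Topology
open scoped ContDiff

/-- A normalised smooth compactly supported function. -/
lemma exists_rho : ∃ ρ : ℝ → ℝ, ContDiff ℝ ∞ ρ ∧ HasCompactSupport ρ ∧ ∫ x, ρ x = 1 := by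
  let b : ContDiffBump (0 : ℝ) := ⟨1, 2, by norm_num, by norm_num⟩
  refine ⟨b.normed volume, b.contDiff_normed, b.hasCompactSupport_normed, b.integral_normed⟩

/-- A smooth compactly supported function of zero integral is the derivative of one. -/
lemma exists_primitive {G : ℝ → ℝ} (hG : ContDiff ℝ ∞ G) (hGc : HasCompactSupport G)
    (h0 : ∫ x, G x = 0) :
    ∃ φ : ℝ → ℝ, ContDiff ℝ ∞ φ ∧ HasCompactSupport φ ∧ deriv φ = G := by
  obtain ⟨M, hM⟩ : ∃ M : ℝ, ∀ x, M ≤ |x| → G x = 0 := by
    obtain ⟨M, hM⟩ := hGc.isCompact.isBounded.subset_closedBall 0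
    refine ⟨M + 1, fun x hx => ?_⟩
    by_contra hne
    have : x ∈ tsupport G := subset_tsupport _ hne
    have := hM this
    rw [Metric.mem_closedBall, Real.dist_eq, sub_zero] at this
    linarith
  have hcont : Continuous G := hG.continuous
  have hderiv : ∀ x, HasDerivAt (fun x => ∫ t in (-|M|)..x, G t) (G x) x := fun x =>
    intervalIntegral.integral_hasDerivAt_right (hcont.intervalIntegrable _ _)
      (hcont.stronglyMeasurableAtFilter _ _) hcont.continuousAt
  have hder : deriv (fun x => ∫ t in (-|M|)..x, G t) = G := funext fun x => (hderiv x).deriv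
  refine ⟨fun x => ∫ t in (-|M|)..x, G t, ?_, ?_, hder⟩
  · rw [contDiff_infty_iff_deriv]
    exact ⟨fun x => (hderiv x).differentiableAt, by rw [hder]; exact hG⟩
  · have hMa : M ≤ |M| := le_abs_self M
    have hMn : 0 ≤ |M| := abs_nonneg M
    refine HasCompactSupport.intro (K := Icc (-|M|) |M|) isCompact_Icc (fun x hx => ?_)
    have hx' : x < -|M| ∨ |M| < x := by
      by_contra hcon
      push Not at hcon
      exact hx ⟨hcon.1, hcon.2⟩
    rcases hx' with hx' | hx'
    · refine (intervalIntegral.integral_congr (g := fun _ => (0 : ℝ)) (fun t ht => ?_)).trans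
        (by simp)
      rw [uIcc_of_ge hx'.le] at ht
      refine hM t ?_
      rw [abs_of_nonpos (by linarith [ht.2])]
      linarith [ht.2]
    · have hsub : Function.support G ⊆ Ioc (-|M| - 1) x := by
        intro t ht
        by_contra hcon
        apply ht
        apply hM
        rw [mem_Ioc, not_and_or] at hcon
        push Not at hcon
        rcases hcon with h | h
        · rw [abs_of_nonpos (by linarith)]; linarith
        · rw [abs_of_nonneg (by linarith)]; linarith
      have h1 : ∫ t in (-|M| - 1)..x, G t = 0 := by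
        rw [intervalIntegral.integral_eq_integral_of_support_subset hsub, h0]
      have h2 : ∫ t in (-|M| - 1)..(-|M|), G t = 0 := by
        refine (intervalIntegral.integral_congr (g := fun _ => (0 : ℝ)) (fun t ht => ?_)).trans
          (by simp)
        rw [uIcc_of_le (by linarith)] at ht
        refine hM t ?_
        rw [abs_of_nonpos (by linarith [ht.2])]
        linarith [ht.2]
      have h3 := intervalIntegral.integral_add_adjacent_intervals
        (hcont.intervalIntegrable (-|M| - 1) (-|M|)) (hcont.intervalIntegrable (μ := volume) (-|M|) x)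
      rw [h1, h2] at h3
      simpa using h3

lemma locInt_mul {w φ : ℝ → ℝ} (hw : LocallyIntegrable w) (hφ : Continuous φ)
    (hφc : HasCompactSupport φ) : Integrable (fun x => w x * φ x) := by
  have := hw.integrable_smul_right_of_hasCompactSupport hφ hφc
  simpa [smul_eq_mul] using this

/-- du Bois-Reymond lemma, first order. -/
lemma const_of_weak {w : ℝ → ℝ} (hw : LocallyIntegrable w)
    (h : ∀ φ : ℝ → ℝ, ContDiff ℝ ∞ φ → HasCompactSupport φ → ∫ x, w x * deriv φ x = 0) :
    ∃ c : ℝ, ∀ᵐ x, w x = c := by
  obtain ⟨ρ, hρ, hρc, hρ1⟩ := exists_rho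
  refine ⟨∫ x, w x * ρ x, ?_⟩
  refine ae_eq_of_integral_contDiff_smul_eq hw (locallyIntegrable_const _) (fun g hg hgc => ?_)
  have hgi : Integrable g := hg.continuous.integrable_of_hasCompactSupport hgc
  have hρi : Integrable ρ := hρ.continuous.integrable_of_hasCompactSupport hρc
  obtain ⟨φ, hφ, hφc, hφd⟩ := exists_primitive (G := fun x => g x - (∫ x, g x) * ρ x)
    (hg.sub (contDiff_const.mul hρ)) (hgc.sub (hρc.mul_left))
    (by rw [integral_sub hgi (hρi.const_mul _), integral_const_mul, hρ1]; ring)
  have h1 := h φ hφ hφc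
  rw [hφd] at h1
  have h2 : ∫ x, (w x * g x - (∫ x, g x) * (w x * ρ x)) = 0 := by
    rw [← h1]; congr 1; ext x; ring
  rw [integral_sub (locInt_mul hw hg.continuous hgc)
    ((locInt_mul hw hρ.continuous hρc).const_mul _), integral_const_mul] at h2
  simp only [smul_eq_mul]
  rw [integral_mul_const]
  have h3 : ∫ x, g x * w x = ∫ x, w x * g x := by congr 1; ext x; ring
  rw [h3]; linarith

/-- du Bois-Reymond lemma, second order. -/
lemma affine_of_weak {w : ℝ → ℝ} (hw : LocallyIntegrable w)
    (h : ∀ φ : ℝ → ℝ, ContDiff ℝ ∞ φ → HasCompactSupport φ →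
      ∫ x, w x * deriv (deriv φ) x = 0) :
    ∃ a b : ℝ, ∀ᵐ x, w x = a + b * x := by
  obtain ⟨ρ, hρ, hρc, hρ1⟩ := exists_rho
  set c : ℝ := ∫ x, w x * deriv ρ x with hc
  have hlin : LocallyIntegrable (fun x : ℝ => c * x) := by
    exact (by fun_prop : Continuous fun x : ℝ => c * x).locallyIntegrable
  suffices hkey : ∀ g : ℝ → ℝ, ContDiff ℝ ∞ g → HasCompactSupport g →
      ∫ x, (w x + c * x) * deriv g x = 0 by
    obtain ⟨a, ha⟩ := const_of_weak (w := fun x => w x + c * x) (hw.add hlin) hkey
    exact ⟨a, -c, ha.mono fun x hx => by linarith⟩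
  intro g hg hgc
  have hgi : Integrable g := hg.continuous.integrable_of_hasCompactSupport hgc
  have hρi : Integrable ρ := hρ.continuous.integrable_of_hasCompactSupport hρc
  have hdg : ContDiff ℝ ∞ (deriv g) := (contDiff_infty_iff_deriv.1 hg).2
  have hdρ : ContDiff ℝ ∞ (deriv ρ) := (contDiff_infty_iff_deriv.1 hρ).2
  obtain ⟨φ, hφ, hφc, hφd⟩ := exists_primitive (G := fun x => g x - (∫ x, g x) * ρ x)
    (hg.sub (contDiff_const.mul hρ)) (hgc.sub (hρc.mul_left))
    (by rw [integral_sub hgi (hρi.const_mul _), integral_const_mul, hρ1]; ring)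
  have h1 := h φ hφ hφc
  rw [hφd] at h1
  have hd : deriv (fun x => g x - (∫ x, g x) * ρ x) =
      fun x => deriv g x - (∫ x, g x) * deriv ρ x := by
    ext x
    have e1 : HasDerivAt g (deriv g x) x := (hg.differentiable (by simp) x).hasDerivAt
    have e2 : HasDerivAt ρ (deriv ρ x) x := (hρ.differentiable (by simp) x).hasDerivAt
    exact (e1.sub (e2.const_mul _)).deriv
  rw [hd] at h1
  have h2 : ∫ x, (w x * deriv g x - (∫ x, g x) * (w x * deriv ρ x)) = 0 := by
    rw [← h1]; congr 1; ext x; ring
  rw [integral_sub (locInt_mul hw hdg.continuous hgc.deriv)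
    ((locInt_mul hw hdρ.continuous hρc.deriv).const_mul _), integral_const_mul, ← hc] at h2
  have h3 : ∫ x, x * deriv g x = - ∫ x, g x := by
    have := integral_mul_deriv_eq_deriv_mul_of_integrable (u := fun x : ℝ => x)
      (u' := fun _ => (1 : ℝ)) (v := g) (v' := deriv g) (fun x _ => hasDerivAt_id' x)
      (fun x _ => (hg.differentiable (by simp) x).hasDerivAt)
      ((continuous_id.mul hdg.continuous).integrable_of_hasCompactSupport
          (hgc.deriv.mul_left (f := (id : ℝ → ℝ))))
      (by simpa [Pi.mul_def] using hgi)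
      ((continuous_id.mul hg.continuous).integrable_of_hasCompactSupport
          (hgc.mul_left (f := (id : ℝ → ℝ))))
    rw [this]; simp
  have h4 : ∫ x, (w x + c * x) * deriv g x
      = (∫ x, w x * deriv g x) + c * ∫ x, x * deriv g x := by
    rw [← integral_const_mul, ← integral_add (locInt_mul hw hdg.continuous hgc.deriv)]
    · congr 1; ext x; ring
    · have h5 : Integrable (fun x : ℝ => x * deriv g x) :=
        (continuous_id.mul hdg.continuous).integrable_of_hasCompactSupport
          (hgc.deriv.mul_left (f := (id : ℝ → ℝ)))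
      exact h5.const_mul c
  rw [h4, h3]; linarith


lemma exists_radius {φ : ℝ → ℝ} (hφc : HasCompactSupport φ) :
    ∃ M : ℝ, 0 ≤ M ∧ ∀ x, M ≤ |x| → φ x = 0 := by
  obtain ⟨M, hM⟩ := hφc.isCompact.isBounded.subset_closedBall 0
  refine ⟨|M| + 1, by positivity, fun x hx => ?_⟩
  by_contra hne
  have : x ∈ tsupport φ := subset_tsupport _ hne
  have := hM this
  rw [Metric.mem_closedBall, Real.dist_eq, sub_zero] at this
  linarith [le_abs_self M]

lemma integral_eq_interval {g : ℝ → ℝ} {M : ℝ} (hM : ∀ x, M ≤ |x| → g x = 0) :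
    ∫ x, g x = ∫ x in (-M)..M, g x := by
  symm
  apply intervalIntegral.integral_eq_integral_of_support_subset
  intro t ht
  by_contra hcon
  apply ht
  apply hM
  rw [mem_Ioc, not_and_or] at hcon
  push Not at hcon
  rcases hcon with h | h
  · have := neg_abs_le t
    linarith
  · exact h.le.trans (le_abs_self t)

/-- Integration by parts against a test function for the primitive of a locally integrable
function. -/
lemma ibp {f φ : ℝ → ℝ} (hf : LocallyIntegrable f) (hφ : ContDiff ℝ ∞ φ)
    (hφc : HasCompactSupport φ) :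
    ∫ x, f x * φ x = - ∫ x, (∫ t in (0:ℝ)..x, f t) * deriv φ x := by
  obtain ⟨M₁, hM₁, hφM₁⟩ := exists_radius hφc
  obtain ⟨M₂, hM₂, hφM₂⟩ := exists_radius hφc.deriv
  set M := max M₁ M₂ with hM
  have hM0 : 0 ≤ M := hM₁.trans (le_max_left _ _)
  have e1 : ∫ x, f x * φ x = ∫ x in (-M)..M, f x * φ x :=
    integral_eq_interval (fun x hx => by rw [hφM₁ x ((le_max_left _ _).trans hx), mul_zero])
  have e2 : ∫ x, (∫ t in (0:ℝ)..x, f t) * deriv φ x
      = ∫ x in (-M)..M, (∫ t in (0:ℝ)..x, f t) * deriv φ x :=
    integral_eq_interval (fun x hx => by rw [hφM₂ x ((le_max_right _ _).trans hx), mul_zero])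
  rw [e1, e2]
  have hfi : IntervalIntegrable f volume (-M) M :=
    intervalIntegrable_iff.mpr <|
      (hf.integrableOn_isCompact isCompact_uIcc).mono_set uIoc_subset_uIcc
  have hac1 := hfi.absolutelyContinuousOnInterval_intervalIntegral (c := 0)
    (by rw [uIcc_of_le (by linarith)]; exact ⟨by linarith, by linarith⟩)
  have hac2 : AbsolutelyContinuousOnInterval φ (-M) M :=
    ContDiffOn.absolutelyContinuousOnInterval ((hφ.of_le (by simp)).contDiffOn)
  have h := hac1.integral_mul_deriv_eq_deriv_mul hac2
  rw [hφM₁ M (by rw [abs_of_nonneg hM0]; exact le_max_left _ _),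
    hφM₁ (-M) (by rw [abs_neg, abs_of_nonneg hM0]; exact le_max_left _ _)] at h
  rw [h]
  have h3 : ∫ x in (-M)..M, deriv (fun x => ∫ t in (0:ℝ)..x, f t) x * φ x
      = ∫ x in (-M)..M, f x * φ x := by
    apply intervalIntegral.integral_congr_ae
    filter_upwards [_root_.LocallyIntegrable.ae_hasDerivAt_integral hf] with x hx _
    rw [(hx 0).deriv]
  rw [h3]; ring

/-- Weak solutions of `u'' = q u`, with `q` continuous, are classical. -/
lemma classical_of_weak {u q : ℝ → ℝ} (hu : LocallyIntegrable u) (hq : Continuous q)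
    (h : ∀ φ : ℝ → ℝ, ContDiff ℝ ∞ φ → HasCompactSupport φ →
      ∫ x, u x * deriv (deriv φ) x = ∫ x, q x * u x * φ x) :
    ∃ y z : ℝ → ℝ, (∀ᵐ x, u x = y x) ∧ (∀ x, HasDerivAt y (z x) x) ∧
      (∀ x, HasDerivAt z (q x * y x) x) := by
  set f : ℝ → ℝ := fun x => q x * u x with hf
  have hfl : LocallyIntegrable f := by
    have := hu.continuous_smul hq
    simpa [Pi.smul_def] using this
  have hfi : ∀ a b : ℝ, IntervalIntegrable f volume a b := fun a b =>
    intervalIntegrable_iff.mpr <|
      (hfl.integrableOn_isCompact isCompact_uIcc).mono_set uIoc_subset_uIcc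
  set F : ℝ → ℝ := fun x => ∫ t in (0:ℝ)..x, f t with hF
  have hFc : Continuous F := by
    rw [hF]
    exact intervalIntegral.continuous_primitive (fun a b => hfi a b) 0
  set K : ℝ → ℝ := fun x => ∫ t in (0:ℝ)..x, F t with hK
  have hKd : ∀ x, HasDerivAt K (F x) x := fun x =>
    intervalIntegral.integral_hasDerivAt_right (hFc.intervalIntegrable _ _)
      (hFc.stronglyMeasurableAtFilter _ _) hFc.continuousAt
  have hKc : Continuous K := continuous_iff_continuousAt.2 fun x => (hKd x).continuousAt
  obtain ⟨a, b, hab⟩ := affine_of_weak (w := fun x => u x - K x)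
    (hu.sub hKc.locallyIntegrable) (fun φ hφ hφc => by
      have hdφ : ContDiff ℝ ∞ (deriv φ) := (contDiff_infty_iff_deriv.1 hφ).2
      have hddφ : ContDiff ℝ ∞ (deriv (deriv φ)) := (contDiff_infty_iff_deriv.1 hdφ).2
      have h1 := ibp hfl hφ hφc
      have h2 := ibp hFc.locallyIntegrable hdφ hφc.deriv
      have h3 := h φ hφ hφc
      have h4 : ∫ x, (u x - K x) * deriv (deriv φ) x
          = (∫ x, u x * deriv (deriv φ) x) - ∫ x, K x * deriv (deriv φ) x := by
        rw [← integral_sub (locInt_mul hu hddφ.continuous hφc.deriv.deriv)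
          (locInt_mul hKc.locallyIntegrable hddφ.continuous hφc.deriv.deriv)]
        congr 1; ext x; ring
      rw [h4, h3]
      have h5 : ∫ x, q x * u x * φ x = ∫ x, f x * φ x := rfl
      rw [h5, h1]
      have h6 : (∫ x, K x * deriv (deriv φ) x) = - ∫ x, F x * deriv φ x := by
        rw [h2]; simp only [neg_neg]; rfl
      rw [h6]; simp [hF])
  have huy : ∀ᵐ x, u x = K x + (a + b * x) := hab.mono fun x hx => by linarith
  set y : ℝ → ℝ := fun x => K x + (a + b * x) with hy
  have hyc : Continuous y := by rw [hy]; fun_prop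
  refine ⟨y, fun x => F x + b, huy, fun x => ?_, fun x => ?_⟩
  · have h1 : HasDerivAt (fun x : ℝ => a + b * x) b x := by
      simpa using ((hasDerivAt_id' x).const_mul b).const_add a
    exact (hKd x).add h1
  · have hFe : F = fun x => ∫ t in (0:ℝ)..x, q t * y t := by
      ext x
      rw [hF]
      apply intervalIntegral.integral_congr_ae
      filter_upwards [huy] with t ht _
      rw [hf]; simp only; rw [ht]
    have hqy : Continuous fun t => q t * y t := hq.mul hyc
    have := intervalIntegral.integral_hasDerivAt_right (a := 0) (b := x)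
      (hqy.intervalIntegrable _ _) (hqy.stronglyMeasurableAtFilter _ _) hqy.continuousAt
    rw [hFe]
    simpa using this.add_const b

/-- A function with a positive lower bound on a half line is not integrable. -/
lemma not_integrable_right {g : ℝ → ℝ} (hg : Integrable g) {c a : ℝ} (hc : 0 < c)
    (h : ∀ x, a ≤ x → c ≤ g x) : False := by
  have h1 : volume {x | c ≤ ‖g x‖} < ⊤ := by
    have := hg.measure_norm_ge_lt_top hc
    exact this
  have h2 : Ici a ⊆ {x | c ≤ ‖g x‖} := fun x hx => (h x hx).trans (le_abs_self _)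
  have h3 := (measure_mono h2).trans_lt h1
  simp at h3

lemma not_integrable_left {g : ℝ → ℝ} (hg : Integrable g) {c a : ℝ} (hc : 0 < c)
    (h : ∀ x, x ≤ a → c ≤ g x) : False := by
  have h1 : volume {x | c ≤ ‖g x‖} < ⊤ := by
    have := hg.measure_norm_ge_lt_top hc
    exact this
  have h2 : Iic a ⊆ {x | c ≤ ‖g x‖} := fun x hx => (h x hx).trans (le_abs_self _)
  have h3 := (measure_mono h2).trans_lt h1
  simp at h3

/-- Classical version: `y'' = (v - E) y`, `y ∈ L²`, `v ≥ 0` with compact support. -/
lemma classical_no_eigen {v y z : ℝ → ℝ} {R E : ℝ} (hvc : Continuous v) (hv0 : ∀ x, 0 ≤ v x)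
    (hR : ∀ x, R ≤ |x| → v x = 0) (hy : ∀ x, HasDerivAt y (z x) x)
    (hz : ∀ x, HasDerivAt z ((v x - E) * y x) x) (hL2 : Integrable fun x => y x ^ 2) :
    ∀ x, y x = 0 := by
  rcases le_or_gt E 0 with hE | hE
  · -- `E ≤ 0`: `y z` is nondecreasing
    have hN : ∀ x, HasDerivAt (fun x => y x * z x) (z x ^ 2 + (v x - E) * y x ^ 2) x := fun x => by
      exact ((hy x).fun_mul (hz x)).congr_deriv (by ring)
    have hmono : Monotone fun x => y x * z x := monotone_of_hasDerivAt_nonneg hN (fun x => by
      have := hv0 x
      have : 0 ≤ (v x - E) * y x ^ 2 := by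
        apply mul_nonneg _ (sq_nonneg _); linarith
      have := sq_nonneg (z x)
      simp only [Pi.zero_apply]; linarith)
    have hS : ∀ x, HasDerivAt (fun x => y x ^ 2) (2 * (y x * z x)) x := fun x => by
      exact ((hy x).fun_pow 2).congr_deriv (by push_cast; ring)
    have hle : ∀ x, y x * z x ≤ 0 := by
      intro x₁
      by_contra hcon
      push Not at hcon
      set c := y x₁ * z x₁ with hc
      have hg : ∀ x, x₁ ≤ x → y x₁ ^ 2 + 2 * c * (x - x₁) ≤ y x ^ 2 := by
        intro x hx
        have hd : ∀ s ∈ interior (Icc x₁ x), HasDerivWithinAt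
            (fun s => y s ^ 2 - 2 * c * (s - x₁)) (2 * (y s * z s) - 2 * c)
            (interior (Icc x₁ x)) s := fun s _ => by
          have h1 := (hS s).sub (((hasDerivAt_id' s).sub_const x₁).const_mul (2 * c))
          rw [mul_one] at h1
          exact h1.hasDerivWithinAt
        have hm := monotoneOn_of_hasDerivWithinAt_nonneg (convex_Icc x₁ x)
          (f := fun s => y s ^ 2 - 2 * c * (s - x₁)) (by
            have : Continuous y := continuous_iff_continuousAt.2 fun x => (hy x).continuousAt
            fun_prop) hd (fun s hs => by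
            have : c ≤ y s * z s := hmono (interior_subset hs).1
            linarith)
        have := hm (left_mem_Icc.2 hx) (right_mem_Icc.2 hx) hx
        simp only [sub_self, mul_zero, sub_zero] at this
        linarith
      refine not_integrable_right hL2 (c := 2 * c) (a := x₁ + 1) (by linarith) (fun x hx => ?_)
      have h1 := hg x (by linarith)
      nlinarith [sq_nonneg (y x₁)]
    have hge : ∀ x, 0 ≤ y x * z x := by
      intro x₁
      by_contra hcon
      push Not at hcon
      set c := y x₁ * z x₁ with hc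
      have hg : ∀ x, x ≤ x₁ → y x₁ ^ 2 + 2 * c * (x - x₁) ≤ y x ^ 2 := by
        intro x hx
        have hd : ∀ s ∈ interior (Icc x x₁), HasDerivWithinAt
            (fun s => y s ^ 2 - 2 * c * (s - x₁)) (2 * (y s * z s) - 2 * c)
            (interior (Icc x x₁)) s := fun s _ => by
          have h1 := (hS s).sub (((hasDerivAt_id' s).sub_const x₁).const_mul (2 * c))
          rw [mul_one] at h1
          exact h1.hasDerivWithinAt
        have hm := antitoneOn_of_hasDerivWithinAt_nonpos (convex_Icc x x₁)
          (f := fun s => y s ^ 2 - 2 * c * (s - x₁)) (by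
            have : Continuous y := continuous_iff_continuousAt.2 fun x => (hy x).continuousAt
            fun_prop) hd (fun s hs => by
            have : y s * z s ≤ c := hmono (interior_subset hs).2
            linarith)
        have := hm (left_mem_Icc.2 hx) (right_mem_Icc.2 hx) hx
        simp only [sub_self, mul_zero, sub_zero] at this
        linarith
      refine not_integrable_left hL2 (c := -2 * c) (a := x₁ - 1) (by linarith) (fun x hx => ?_)
      have h1 := hg x (by linarith)
      nlinarith [sq_nonneg (y x₁)]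
    have hS0 : ∀ x, HasDerivAt (fun x => y x ^ 2) 0 x := fun x => by
      have h1 := hS x
      have : y x * z x = 0 := le_antisymm (hle x) (hge x)
      rwa [this, mul_zero] at h1
    have hconst : ∀ x, y x ^ 2 = y 0 ^ 2 := fun x =>
      is_const_of_deriv_eq_zero (fun x => (hS0 x).differentiableAt) (fun x => (hS0 x).deriv) x 0
    by_contra hne
    push Not at hne
    obtain ⟨x₀, hx₀⟩ := hne
    have hpos : 0 < y 0 ^ 2 := by rw [← hconst x₀]; positivity
    exact not_integrable_right hL2 (a := 0) hpos (fun x _ => (hconst x).ge)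
  · -- `E > 0`
    have hyc : Continuous y := continuous_iff_continuousAt.2 fun x => (hy x).continuousAt
    have hzc : Continuous z := continuous_iff_continuousAt.2 fun x => (hz x).continuousAt
    -- energy `E y² + z²` is constant on the right of `|R|`
    have hen : ∀ x, |R| ≤ x → E * y x ^ 2 + z x ^ 2 = E * y |R| ^ 2 + z |R| ^ 2 := by
      intro x hx
      have := constant_of_has_deriv_right_zero (f := fun x => E * y x ^ 2 + z x ^ 2)
        (a := |R|) (b := x) (by fun_prop) (fun s hs => by
          have hvs : v s = 0 := hR s (by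
            rw [abs_of_nonneg ((abs_nonneg R).trans hs.1)]
            exact (le_abs_self R).trans hs.1)
          have h1 := (((hy s).pow 2).const_mul E).add ((hz s).pow 2)
          rw [hvs] at h1
          have h2 : E * (((2:ℕ):ℝ) * y s ^ (2 - 1) * z s) + ((2:ℕ):ℝ) * z s ^ (2 - 1) * ((0 - E) * y s) = 0 := by
            push_cast; ring
          rw [h2] at h1
          exact h1.hasDerivWithinAt)
      exact this x ⟨hx, le_rfl⟩
    set e := E * y |R| ^ 2 + z |R| ^ 2 with he
    have he0 : 0 ≤ e := by positivity
    -- `2 E ∫ y² = e x - y z + const`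
    have hint : ∀ x, |R| ≤ x → 2 * E * (∫ t in |R|..x, y t ^ 2)
        = e * (x - |R|) - (y x * z x - y |R| * z |R|) := by
      intro x hx
      have hcst := constant_of_has_deriv_right_zero
        (f := fun x => 2 * E * (∫ t in |R|..x, y t ^ 2) - (e * (x - |R|) - (y x * z x - y |R| * z |R|)))
        (a := |R|) (b := x) (by
          have : Continuous fun x => ∫ t in |R|..x, y t ^ 2 :=
            intervalIntegral.continuous_primitive (fun a b => (by fun_prop : Continuous fun t => y t ^ 2).intervalIntegrable a b) _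
          fun_prop) (fun s hs => by
          have hvs : v s = 0 := hR s (by
            rw [abs_of_nonneg ((abs_nonneg R).trans hs.1)]
            exact (le_abs_self R).trans hs.1)
          have hY : Continuous fun t => y t ^ 2 := by fun_prop
          have h0 := intervalIntegral.integral_hasDerivAt_right (a := |R|) (b := s)
            (hY.intervalIntegrable _ _) (hY.stronglyMeasurableAtFilter _ _) hY.continuousAt
          have h1 := ((hasDerivAt_id' s).sub_const |R|).const_mul e
          have h2 := ((hy s).mul (hz s)).sub_const (y |R| * z |R|)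
          have h3 := (h0.const_mul (2 * E)).sub (h1.sub h2)
          rw [hvs] at h3
          have h4 : 2 * E * y s ^ 2 - (e * 1 - (z s * z s + y s * ((0 - E) * y s))) = 0 := by
            rw [← hen s hs.1]; ring
          rw [h4] at h3
          exact h3.hasDerivWithinAt)
      have := hcst x ⟨hx, le_rfl⟩
      simp only [intervalIntegral.integral_same, sub_self, mul_zero] at this
      linarith
    have he_zero : e = 0 := by
      by_contra hne
      have hepos : 0 < e := lt_of_le_of_ne he0 (Ne.symm hne)
      -- bounds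
      have hbd : ∀ x, |R| ≤ x → y x * z x ≤ e * (1 + 1 / E) := by
        intro x hx
        have h1 := hen x hx
        have h2 : y x ^ 2 ≤ e / E := by
          rw [le_div_iff₀ hE]; nlinarith [sq_nonneg (z x)]
        have h3 : z x ^ 2 ≤ e := by nlinarith [sq_nonneg (y x)]
        have h4 : y x * z x ≤ y x ^ 2 + z x ^ 2 := by nlinarith [sq_nonneg (y x - z x), sq_nonneg (y x + z x)]
        have h5 : e * (1 + 1 / E) = e + e / E := by ring
        rw [h5]; linarith
      have hub : ∀ x, |R| ≤ x → ∫ t in |R|..x, y t ^ 2 ≤ ∫ t, y t ^ 2 := by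
        intro x hx
        rw [intervalIntegral.integral_of_le hx]
        exact setIntegral_le_integral hL2 (Eventually.of_forall fun t => sq_nonneg _)
      set I := ∫ t, y t ^ 2 with hI
      -- choose x large
      set x := |R| + (2 * E * I + e * (1 + 1 / E) + abs (y |R| * z |R|) + 1) / e with hx
      have hI0 : 0 ≤ I := integral_nonneg fun t => sq_nonneg _
      have hnn : 0 ≤ (2 * E * I + e * (1 + 1 / E) + abs (y |R| * z |R|) + 1) / e := by positivity
      have hxR : |R| ≤ x := by rw [hx]; linarith
      have h1 := hint x hxR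
      have h2 := hbd x hxR
      have h3 := hub x hxR
      have h4 : e * (x - |R|) = 2 * E * I + e * (1 + 1 / E) + abs (y |R| * z |R|) + 1 := by
        rw [hx]; field_simp; ring
      have h5 : 2 * E * (∫ t in |R|..x, y t ^ 2) ≤ 2 * E * I :=
        mul_le_mul_of_nonneg_left h3 (by linarith)
      have h6 := neg_abs_le (y |R| * z |R|)
      linarith
    -- so `y = z = 0` at `|R|`; Gronwall to the left
    have hyR : y |R| = 0 ∧ z |R| = 0 := by
      have h1 : E * y |R| ^ 2 + z |R| ^ 2 = 0 := he_zero
      have h2 : 0 ≤ E * y |R| ^ 2 := by positivity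
      have h3 : 0 ≤ z |R| ^ 2 := by positivity
      have h4 : y |R| ^ 2 = 0 := by
        have : E * y |R| ^ 2 = 0 := by linarith
        rcases mul_eq_zero.1 this with h | h
        · exact absurd h hE.ne'
        · exact h
      exact ⟨by simpa using h4, by simpa using (by linarith : z |R| ^ 2 = 0)⟩
    obtain ⟨B, hB⟩ : ∃ B, ∀ x, v x ≤ B := by
      obtain ⟨B, hB⟩ := (isCompact_Icc (a := -|R|) (b := |R|)).exists_bound_of_continuousOn
        hvc.continuousOn
      refine ⟨max B 0, fun x => ?_⟩
      by_cases hx : x ∈ Icc (-|R|) |R|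
      · exact ((le_abs_self _).trans (hB x hx)).trans (le_max_left _ _)
      · rw [hR x ?_]
        · exact le_max_right _ _
        · rw [mem_Icc, ← abs_le, not_le] at hx
          exact (le_abs_self R).trans hx.le
    have hB0 : 0 ≤ B := (hv0 0).trans (hB 0)
    set L := 1 + B + E with hL
    have hLpos : 0 < L := by rw [hL]; linarith
    have hpt : ∀ x, |2 * (y x * z x) * (1 + (v x - E))| ≤ L * (y x ^ 2 + z x ^ 2) := by
      intro x
      have h1 : |1 + (v x - E)| ≤ L := by
        rw [abs_le]; constructor <;> rw [hL] <;> linarith [hv0 x, hB x]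
      have h2 : |2 * (y x * z x)| ≤ y x ^ 2 + z x ^ 2 := by
        rw [abs_le]; constructor <;> nlinarith [sq_nonneg (y x - z x), sq_nonneg (y x + z x)]
      rw [abs_mul, mul_comm L]
      exact mul_le_mul h2 h1 (abs_nonneg _) (by positivity)
    have hleft : ∀ x, x ≤ |R| → y x = 0 := by
      have hmono : Monotone fun x => (y x ^ 2 + z x ^ 2) * Real.exp (L * x) := by
        refine monotone_of_hasDerivAt_nonneg (f' := fun x =>
          (2 * (y x * z x) * (1 + (v x - E))) * Real.exp (L * x)
            + (y x ^ 2 + z x ^ 2) * (Real.exp (L * x) * L)) (fun x => ?_) (fun x => ?_)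
        · have h1 := ((hy x).fun_pow 2).fun_add ((hz x).fun_pow 2)
          have h2 : HasDerivAt (fun x : ℝ => Real.exp (L * x)) (Real.exp (L * x) * L) x := by
            have := ((hasDerivAt_id' x).const_mul L).exp
            simpa using this
          exact (h1.fun_mul h2).congr_deriv (by push_cast; ring)
        · have h1 := hpt x
          rw [abs_le] at h1
          simp only [Pi.zero_apply]
          have h2 : 0 < Real.exp (L * x) := Real.exp_pos _
          nlinarith [h1.1]
      intro x hx
      have h1 := hmono hx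
      simp only [hyR.1, hyR.2] at h1
      have h2 : 0 < Real.exp (L * x) := Real.exp_pos _
      have h3 : y x ^ 2 + z x ^ 2 ≤ 0 := by
        by_contra hcon
        push Not at hcon
        have := mul_pos hcon h2
        norm_num at h1
        linarith
      have h4 : y x ^ 2 = 0 := by nlinarith [sq_nonneg (y x), sq_nonneg (z x)]
      simpa using h4
    intro x
    rcases le_total x |R| with hx | hx
    · exact hleft x hx
    · have h1 := hen x hx
      rw [he_zero] at h1
      have h2 : E * y x ^ 2 = 0 := by
        have : 0 ≤ E * y x ^ 2 := by positivity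
        nlinarith [sq_nonneg (z x)]
      rcases mul_eq_zero.1 h2 with h | h
      · exact absurd h hE.ne'
      · simpa using h

/-- Real version in the distributional sense. -/
lemma real_no_eigen {v u : ℝ → ℝ} {R E : ℝ} (hvc : Continuous v) (hv0 : ∀ x, 0 ≤ v x)
    (hR : ∀ x, R ≤ |x| → v x = 0) (hu : MemLp u 2 volume)
    (hw : ∀ φ : ℝ → ℝ, ContDiff ℝ ∞ φ → HasCompactSupport φ →
      ∫ x, u x * (-(deriv (deriv φ) x) + v x * φ x - E * φ x) = 0) :
    ∀ᵐ x, u x = 0 := by
  have hul : LocallyIntegrable u := hu.locallyIntegrable (by norm_num)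
  have hqc : Continuous fun x => v x - E := hvc.sub continuous_const
  obtain ⟨y, z, hae, hy, hz⟩ := classical_of_weak hul hqc (fun φ hφ hφc => by
    have hdφ : ContDiff ℝ ∞ (deriv φ) := (contDiff_infty_iff_deriv.1 hφ).2
    have hddφ : ContDiff ℝ ∞ (deriv (deriv φ)) := (contDiff_infty_iff_deriv.1 hdφ).2
    have h1 := hw φ hφ hφc
    have hi1 := locInt_mul hul hddφ.continuous hφc.deriv.deriv
    have hi2 : Integrable fun x => (v x - E) * u x * φ x := by
      have := locInt_mul hul (φ := fun x => (v x - E) * φ x)
        (hqc.mul hφ.continuous) (hφc.mul_left)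
      refine this.congr (Eventually.of_forall fun x => ?_)
      ring
    have h2 : ∫ x, u x * (-(deriv (deriv φ) x) + v x * φ x - E * φ x)
        = (∫ x, (v x - E) * u x * φ x) - ∫ x, u x * deriv (deriv φ) x := by
      rw [← integral_sub hi2 hi1]
      congr 1; ext x; ring
    linarith)
  have hyL2 : MemLp y 2 volume := hu.ae_eq hae
  have hy2 : Integrable fun x => y x ^ 2 := hyL2.integrable_sq
  have h0 := classical_no_eigen hvc hv0 hR hy hz hy2
  exact hae.mono fun x hx => by rw [hx, h0 x]

/-- **No eigenfunctions.**  For `v ≥ 0` continuous with compact support, the only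
`u ∈ L²(ℝ; ℂ)` with `-u'' + v u = E u` in the sense of distributions, `E` real, is `u = 0`. -/
theorem no_eigen {v : ℝ → ℝ} {R E : ℝ} (hvc : Continuous v) (hv0 : ∀ x, 0 ≤ v x)
    (hR : ∀ x, R ≤ |x| → v x = 0) {u : ℝ → ℂ} (hu : MemLp u 2 volume)
    (hw : ∀ φ : ℝ → ℝ, ContDiff ℝ ∞ φ → HasCompactSupport φ →
      ∫ x, u x * ((-(deriv (deriv φ) x) + v x * φ x - E * φ x : ℝ) : ℂ) = 0) :
    ∀ᵐ x, u x = 0 := by
  have hul : LocallyIntegrable u := hu.locallyIntegrable (by norm_num)
  have hint : ∀ φ : ℝ → ℝ, ContDiff ℝ ∞ φ → HasCompactSupport φ →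
      Integrable fun x => u x * ((-(deriv (deriv φ) x) + v x * φ x - E * φ x : ℝ) : ℂ) := by
    intro φ hφ hφc
    have hdφ : ContDiff ℝ ∞ (deriv φ) := (contDiff_infty_iff_deriv.1 hφ).2
    have hddφ : ContDiff ℝ ∞ (deriv (deriv φ)) := (contDiff_infty_iff_deriv.1 hdφ).2
    have hc : Continuous fun x => (-(deriv (deriv φ) x) + v x * φ x - E * φ x) :=
      ((hddφ.continuous.neg).add (hvc.mul hφ.continuous)).sub (continuous_const.mul hφ.continuous)
    have hcs : HasCompactSupport fun x => (-(deriv (deriv φ) x) + v x * φ x - E * φ x) :=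
      ((hφc.deriv.deriv.neg).add (hφc.mul_left)).sub (hφc.mul_left)
    have := hul.integrable_smul_left_of_hasCompactSupport hc hcs
    refine this.congr (Eventually.of_forall fun x => ?_)
    simp only [Complex.real_smul]
    ring
  have hre := real_no_eigen (u := fun x => (u x).re) hvc hv0 hR hu.re (E := E) (fun φ hφ hφc => by
    have h1 := hw φ hφ hφc
    have h2 := congrArg Complex.re h1
    rw [← RCLike.re_eq_complex_re, ← integral_re (hint φ hφ hφc)] at h2
    simp only [RCLike.re_eq_complex_re, Complex.re_mul_ofReal, Complex.zero_re] at h2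
    exact h2)
  have him := real_no_eigen (u := fun x => (u x).im) hvc hv0 hR hu.im (E := E) (fun φ hφ hφc => by
    have h1 := hw φ hφ hφc
    have h2 := congrArg Complex.im h1
    rw [← RCLike.im_eq_complex_im, ← integral_im (hint φ hφ hφc)] at h2
    simp only [RCLike.im_eq_complex_im, Complex.im_mul_ofReal, Complex.zero_im] at h2
    exact h2)
  filter_upwards [hre, him] with x h1 h2
  exact Complex.ext h1 h2

end Pool.Agent.H.MP_4efd05_mp
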