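import Pool.Agent.H.MP_4efd05_mp.Construct

/-!
The wave function in Eulerian coordinates and the Schroedinger equation.
-/

open Filter Topology Set
open scoped ContDiff

namespace Pool.Agent.H.MP_4efd05_mp

open Real

/-- the wave function. -/
noncomputable def psi (A K kap lam : ℝ) (Y : ℝ → ℝ → ℝ) (x t : ℝ) : ℂ :=
  Complex.exp (((S0 A K kap lam (Y x (K * t)) (K * t) : ℝ) : ℂ)
    + Complex.I * ((K ^ 2 * lam ^ 2 * t + K * Th A (Y x (K * t)) (K * t) : ℝ) : ℂ))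

/-- the potential. -/
noncomputable def Vpot (A K kap lam : ℝ) (Y : ℝ → ℝ → ℝ) (x t : ℝ) : ℝ :=
  VL A K kap lam (Y x (K * t)) (K * t)

/-- logarithmic derivative of the wave function. -/
noncomputable def FF (A K kap lam : ℝ) (m φ : ℝ) : ℂ :=
  ((S1 A K kap lam m φ / X1 A m φ : ℝ) : ℂ) + Complex.I * ((K * Xp A m φ / 2 : ℝ) : ℂ)

variable {A K kap lam : ℝ} {Y : ℝ → ℝ → ℝ}

theorem Y_x (hA : ∀ m φ, 1 / 2 ≤ X1 A m φ) (hYs : ContDiff ℝ ∞ (fun p : ℝ × ℝ => Y p.1 p.2))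
    (hXY : ∀ x φ, X A (Y x φ) φ = x) (x φ : ℝ) :
    HasDerivAt (fun x => Y x φ) (1 / X1 A (Y x φ) φ) x := by
  have hd : DifferentiableAt ℝ (fun x => Y x φ) x := by
    have h1 : ContDiff ℝ ∞ (fun x => Y x φ) := hYs.comp (contDiff_id.prodMk contDiff_const)
    exact h1.differentiable (by simp) x
  have h1 := curve_X (A := A) hd.hasDerivAt (hasDerivAt_const x φ)
  have h2 : (fun s => X A (Y s φ) φ) = fun s => s := by
    ext s
    exact hXY s φ
  rw [h2] at h1
  have h3 := h1.unique (hasDerivAt_id' x)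
  have hX : X1 A (Y x φ) φ ≠ 0 := by
    have := hA (Y x φ) φ
    intro h
    rw [h] at this
    norm_num at this
  have h4 : deriv (fun x => Y x φ) x = 1 / X1 A (Y x φ) φ := by
    rw [eq_div_iff hX]
    linarith
  rw [← h4]
  exact hd.hasDerivAt

theorem Y_t (hA : ∀ m φ, 1 / 2 ≤ X1 A m φ) (hYs : ContDiff ℝ ∞ (fun p : ℝ × ℝ => Y p.1 p.2))
    (hXY : ∀ x φ, X A (Y x φ) φ = x) (x t : ℝ) :
    HasDerivAt (fun t => Y x (K * t))
      (-(K * Xp A (Y x (K * t)) (K * t) / X1 A (Y x (K * t)) (K * t))) t := by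
  have hd : DifferentiableAt ℝ (fun t => Y x (K * t)) t := by
    have h1 : ContDiff ℝ ∞ (fun t => Y x (K * t)) :=
      hYs.comp (contDiff_const.prodMk (contDiff_const.mul contDiff_id))
    exact h1.differentiable (by simp) t
  have hK : HasDerivAt (fun t : ℝ => K * t) K t := by
    simpa using (hasDerivAt_id' t).const_mul K
  have h1 := curve_X (A := A) hd.hasDerivAt hK
  have h2 : (fun s => X A (Y x (K * s)) (K * s)) = fun s => x := by
    ext s
    exact hXY x (K * s)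
  rw [h2] at h1
  have h3 := h1.unique (hasDerivAt_const t x)
  have hX : X1 A (Y x (K * t)) (K * t) ≠ 0 := by
    have := hA (Y x (K * t)) (K * t)
    intro h
    rw [h] at this
    norm_num at this
  have h4 : deriv (fun t => Y x (K * t)) t
      = -(K * Xp A (Y x (K * t)) (K * t) / X1 A (Y x (K * t)) (K * t)) := by
    rw [← neg_div, eq_div_iff hX]
    linarith
  rw [← h4]
  exact hd.hasDerivAt

theorem psi_x (hA : ∀ m φ, 1 / 2 ≤ X1 A m φ) (hYs : ContDiff ℝ ∞ (fun p : ℝ × ℝ => Y p.1 p.2))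
    (hXY : ∀ x φ, X A (Y x φ) φ = x) (x t : ℝ) :
    HasDerivAt (fun x => psi A K kap lam Y x t)
      (psi A K kap lam Y x t * FF A K kap lam (Y x (K * t)) (K * t)) x := by
  have hy := Y_x hA hYs hXY x (K * t)
  have hpos : 0 < X1 A (Y x (K * t)) (K * t) := lt_of_lt_of_le (by norm_num) (hA _ _)
  have h1 := curve_S0 (A := A) (K := K) (kap := kap) (lam := lam) hy
    (hasDerivAt_const x (K * t)) hpos
  have h2 := ((curve_Th (A := A) hy (hasDerivAt_const x (K * t))).const_mul K).const_add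
    (K ^ 2 * lam ^ 2 * t)
  have h3 := h1.ofReal_comp.fun_add (h2.ofReal_comp.const_mul Complex.I)
  have h4 := h3.cexp
  unfold psi
  refine h4.congr_deriv ?_
  congr 1
  unfold FF
  have : (X1 A (Y x (K * t)) (K * t) : ℂ) ≠ 0 := by exact_mod_cast hpos.ne'
  push_cast
  field_simp
  ring

theorem FF_x (hA : ∀ m φ, 1 / 2 ≤ X1 A m φ) (hYs : ContDiff ℝ ∞ (fun p : ℝ × ℝ => Y p.1 p.2))
    (hXY : ∀ x φ, X A (Y x φ) φ = x) (x φ : ℝ) :
    HasDerivAt (fun x => FF A K kap lam (Y x φ) φ)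
      ((((S2 A K kap lam (Y x φ) φ - S1 A K kap lam (Y x φ) φ * X2 A (Y x φ) φ / X1 A (Y x φ) φ)
        / X1 A (Y x φ) φ ^ 2 : ℝ) : ℂ)
        + Complex.I * ((K * Xp1 A (Y x φ) φ / (2 * X1 A (Y x φ) φ) : ℝ) : ℂ)) x := by
  have hy := Y_x hA hYs hXY x φ
  have hpos : 0 < X1 A (Y x φ) φ := lt_of_lt_of_le (by norm_num) (hA _ _)
  have h1 := curve_S1 (A := A) (K := K) (kap := kap) (lam := lam) (q := φ) hy hpos
  have h2 : HasDerivAt (fun x => X1 A (Y x φ) φ) (X2 A (Y x φ) φ * (1 / X1 A (Y x φ) φ)) x := by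
    have := curve_X1 (A := A) hy (hasDerivAt_const x φ)
    simpa using this
  have h3 := (h1.fun_div h2 hpos.ne').ofReal_comp
  have h4 := (((curve_Xp (A := A) (q := φ) hy).const_mul K).div_const 2).ofReal_comp.const_mul
    Complex.I
  have h5 := h3.fun_add h4
  unfold FF
  refine h5.congr_deriv ?_
  have : (X1 A (Y x φ) φ : ℂ) ≠ 0 := by exact_mod_cast hpos.ne'
  push_cast
  field_simp

theorem psi_xx (hA : ∀ m φ, 1 / 2 ≤ X1 A m φ) (hYs : ContDiff ℝ ∞ (fun p : ℝ × ℝ => Y p.1 p.2))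
    (hXY : ∀ x φ, X A (Y x φ) φ = x) (x t : ℝ) :
    iteratedDeriv 2 (fun x => psi A K kap lam Y x t) x
      = psi A K kap lam Y x t * (FF A K kap lam (Y x (K * t)) (K * t) ^ 2 +
      ((((S2 A K kap lam (Y x (K * t)) (K * t) - S1 A K kap lam (Y x (K * t)) (K * t)
          * X2 A (Y x (K * t)) (K * t) / X1 A (Y x (K * t)) (K * t))
        / X1 A (Y x (K * t)) (K * t) ^ 2 : ℝ) : ℂ)
        + Complex.I * ((K * Xp1 A (Y x (K * t)) (K * t)
          / (2 * X1 A (Y x (K * t)) (K * t)) : ℝ) : ℂ))) := by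
  have h1 : deriv (fun x => psi A K kap lam Y x t)
      = fun x => psi A K kap lam Y x t * FF A K kap lam (Y x (K * t)) (K * t) := by
    ext x
    exact (psi_x hA hYs hXY x t).deriv
  rw [iteratedDeriv_succ, iteratedDeriv_one, h1]
  have h2 := (psi_x (K := K) (kap := kap) (lam := lam) hA hYs hXY x t).fun_mul
    (FF_x (K := K) (kap := kap) (lam := lam) hA hYs hXY x (K * t))
  rw [h2.deriv]
  ring

theorem psi_t (hA : ∀ m φ, 1 / 2 ≤ X1 A m φ) (hYs : ContDiff ℝ ∞ (fun p : ℝ × ℝ => Y p.1 p.2))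
    (hXY : ∀ x φ, X A (Y x φ) φ = x) (x t : ℝ) :
    HasDerivAt (fun t => psi A K kap lam Y x t)
      (psi A K kap lam Y x t *
        (((-(K * Xp A (Y x (K * t)) (K * t) * S1 A K kap lam (Y x (K * t)) (K * t)
            / X1 A (Y x (K * t)) (K * t))
          - K * Xp1 A (Y x (K * t)) (K * t) / (2 * X1 A (Y x (K * t)) (K * t)) : ℝ) : ℂ)
        + Complex.I * ((K ^ 2 * lam ^ 2 + K ^ 2 * Thp A (Y x (K * t)) (K * t)
          - K ^ 2 * Xp A (Y x (K * t)) (K * t) ^ 2 / 2 : ℝ) : ℂ))) t := by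
  have hy := Y_t (K := K) hA hYs hXY x t
  have hK : HasDerivAt (fun t : ℝ => K * t) K t := by
    simpa using (hasDerivAt_id' t).const_mul K
  have hpos : 0 < X1 A (Y x (K * t)) (K * t) := lt_of_lt_of_le (by norm_num) (hA _ _)
  have h1 := curve_S0 (A := A) (K := K) (kap := kap) (lam := lam) hy hK hpos
  have h2 := ((hasDerivAt_id' t).const_mul (K ^ 2 * lam ^ 2)).fun_add
    ((curve_Th (A := A) hy hK).const_mul K)
  have h3 := h1.ofReal_comp.fun_add (h2.ofReal_comp.const_mul Complex.I)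
  have h4 := h3.cexp
  unfold psi
  refine h4.congr_deriv ?_
  congr 1
  have : (X1 A (Y x (K * t)) (K * t) : ℂ) ≠ 0 := by exact_mod_cast hpos.ne'
  push_cast
  field_simp
  ring

/-- The Schroedinger equation. -/
theorem schroedinger (hA : ∀ m φ, 1 / 2 ≤ X1 A m φ)
    (hYs : ContDiff ℝ ∞ (fun p : ℝ × ℝ => Y p.1 p.2))
    (hXY : ∀ x φ, X A (Y x φ) φ = x) (x t : ℝ) :
    Complex.I * deriv (fun s => psi A K kap lam Y x s) t
      = - iteratedDeriv 2 (fun y => psi A K kap lam Y y t) x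
        + (Vpot A K kap lam Y x t : ℂ) * psi A K kap lam Y x t := by
  rw [(psi_t hA hYs hXY x t).deriv, psi_xx hA hYs hXY x t]
  have hpos : 0 < X1 A (Y x (K * t)) (K * t) := lt_of_lt_of_le (by norm_num) (hA _ _)
  have hne : (X1 A (Y x (K * t)) (K * t) : ℂ) ≠ 0 := by exact_mod_cast hpos.ne'
  have hI : Complex.I ^ 2 = -1 := Complex.I_sq
  unfold Vpot VL FF
  push_cast
  field_simp
  ring_nf
  simp only [hI]
  ring_nf

end Pool.Agent.H.MP_4efd05_mp
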