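import Pool.Agent.H.MP_4efd05_mp.Pde

/-!
Nonnegativity and support of the potential.
-/

open Filter Topology Set
open scoped ContDiff

namespace Pool.Agent.H.MP_4efd05_mp

open Real

theorem abs_ca_le {A : ℝ} (hA : 0 ≤ A) (φ : ℝ) : |ca A φ| ≤ A := by
  unfold ca
  rw [abs_mul, abs_of_nonneg hA]
  exact mul_le_of_le_one_right hA (abs_cos_le_one _)

theorem abs_cb_le {A : ℝ} (φ : ℝ) : |cb A φ| ≤ A ^ 2 / 16 := by
  unfold cb
  rw [abs_mul, abs_of_nonneg (by positivity : (0:ℝ) ≤ A ^ 2 / 16)]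
  exact mul_le_of_le_one_right (by positivity) (abs_cos_le_one _)

/-- the amplitude can be chosen so small that the flow is a diffeomorphism. -/
theorem exists_amplitude : ∃ A : ℝ, 0 < A ∧ A ≤ 1 ∧
    ∀ m φ, 1 / 2 ≤ X1 A m φ ∧ X1 A m φ ≤ 3 / 2 := by
  obtain ⟨CE, hCE, hE⟩ := exists_bound_E 2
  obtain ⟨CZ, hCZ, hZ⟩ := exists_bound_Z 2
  have hpos : 0 < 2 * (CE + CZ + 1) := by positivity
  refine ⟨1 / (2 * (CE + CZ + 1)), by positivity, ?_, ?_⟩
  · rw [div_le_one hpos]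
    linarith
  intro m φ
  set A := 1 / (2 * (CE + CZ + 1)) with hAdef
  have hA : 0 < A := by positivity
  have hA1 : A ≤ 1 := by
    rw [hAdef, div_le_one hpos]
    linarith
  have hA2 : A * (CE + CZ) ≤ 1 / 2 := by
    rw [hAdef, div_mul_eq_mul_div, div_le_div_iff₀ hpos (by norm_num)]
    linarith
  have h1 : |ca A φ * iteratedDeriv 2 E m| ≤ A * CE := by
    rw [abs_mul]
    exact mul_le_mul (abs_ca_le hA.le φ) (hE m) (abs_nonneg _) hA.le
  have h2 : |cb A φ * iteratedDeriv 2 Z m| ≤ A * CZ := by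
    rw [abs_mul]
    have : |cb A φ| ≤ A := (abs_cb_le φ).trans (by nlinarith)
    exact mul_le_mul this (hZ m) (abs_nonneg _) hA.le
  have h3 := abs_le.mp h1
  have h4 := abs_le.mp h2
  unfold X1
  constructor <;> nlinarith

/-! ### Expansion of the potential in powers of `K` -/

noncomputable def WW (A lam m φ : ℝ) : ℝ := -lam ^ 2 - Thp A m φ + Xp A m φ ^ 2 / 4

noncomputable def T1 (A kap lam m φ : ℝ) : ℝ :=
  2 * hh kap lam m * X2 A m φ / X1 A m φ ^ 3 - deriv (hh kap lam) m / X1 A m φ ^ 2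

noncomputable def T0 (A m φ : ℝ) : ℝ :=
  5 / 4 * X2 A m φ ^ 2 / X1 A m φ ^ 4 - X3 A m φ / (2 * X1 A m φ ^ 3)

theorem VL_expand (A K kap lam m φ : ℝ) (h : X1 A m φ ≠ 0) :
    VL A K kap lam m φ = K ^ 2 * (WW A lam m φ + hh kap lam m ^ 2 / X1 A m φ ^ 2)
      + K * T1 A kap lam m φ + T0 A m φ := by
  unfold VL WW T1 T0 S1 S2
  field_simp
  ring

theorem WW_eq (A lam m φ : ℝ) :
    WW A lam m φ = A ^ 2 / 8 - lam ^ 2 + ca A φ * E m / 2 + 2 * cb A φ * Z m
      + ca A φ ^ 2 / 4 * (iteratedDeriv 1 E m ^ 2 - 1)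
      + cb A φ ^ 2 * iteratedDeriv 1 Z m ^ 2 := by
  have e := E_mul_Z m (j := 1) (k := 1) le_rfl le_rfl
  have hb : cb A φ = (ca A φ ^ 2 / 4 - A ^ 2 / 8) / 2 := by
    unfold ca cb
    rw [cos_two_mul]
    ring
  unfold WW Thp Xp
  have : (da A φ * iteratedDeriv 1 E m + db A φ * iteratedDeriv 1 Z m) ^ 2
      = da A φ ^ 2 * iteratedDeriv 1 E m ^ 2 + db A φ ^ 2 * iteratedDeriv 1 Z m ^ 2 := by
    linear_combination (2 * da A φ * db A φ) * e
  rw [this]
  have h2 : ca A φ ^ 2 / 4 - 2 * cb A φ = A ^ 2 / 8 := by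
    rw [hb]
    ring
  linear_combination h2

theorem WW_ge {A lam m φ : ℝ} (hA : 0 < A) (hA1 : A ≤ 1) :
    A ^ 2 / 8 - lam ^ 2 - A * |m| ≤ WW A lam m φ := by
  rw [WW_eq]
  have hm := abs_nonneg m
  have h1 : -(A / 2 * |m|) ≤ ca A φ * E m / 2 := by
    have : |ca A φ * E m| ≤ A * |m| := by
      rw [abs_mul]
      exact mul_le_mul (abs_ca_le hA.le φ) (abs_E_le m) (abs_nonneg _) hA.le
    have := (abs_le.mp this).1
    linarith
  have h2 : -(A ^ 2 / 8 * |m|) ≤ 2 * cb A φ * Z m := by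
    have : |cb A φ * Z m| ≤ A ^ 2 / 16 * |m| := by
      rw [abs_mul, abs_of_nonneg (Z_nonneg m)]
      exact mul_le_mul (abs_cb_le φ) (Z_le_abs m) (Z_nonneg _) (by positivity)
    have := (abs_le.mp this).1
    linarith
  have h3 : -(A ^ 2 / 4 * |m|) ≤ ca A φ ^ 2 / 4 * (iteratedDeriv 1 E m ^ 2 - 1) := by
    have hc : ca A φ ^ 2 ≤ A ^ 2 := by
      rw [← sq_abs]
      exact pow_le_pow_left₀ (abs_nonneg _) (abs_ca_le hA.le φ) 2
    rcases lt_or_ge (m ^ 2) 1 with h | h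
    · rw [E_one_eq h]
      norm_num
      positivity
    · have h4 : 1 ≤ |m| := by
        by_contra hc
        push Not at hc
        have : m ^ 2 < 1 := by
          rw [← sq_abs]
          nlinarith [abs_nonneg m]
        linarith
      have h5 : -1 ≤ iteratedDeriv 1 E m ^ 2 - 1 := by
        have := sq_nonneg (iteratedDeriv 1 E m)
        linarith
      have h6 : ca A φ ^ 2 / 4 * (-1) ≤ ca A φ ^ 2 / 4 * (iteratedDeriv 1 E m ^ 2 - 1) :=
        mul_le_mul_of_nonneg_left h5 (by positivity)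
      nlinarith
  have h4 : 0 ≤ cb A φ ^ 2 * iteratedDeriv 1 Z m ^ 2 := by positivity
  have h5 : A ^ 2 * |m| ≤ A * |m| := mul_le_mul_of_nonneg_right (by nlinarith) hm
  have h6 : 0 ≤ A * |m| := by positivity
  linarith

/-- bounds for the lower order terms on `[-3, 3]`. -/
theorem exists_lower_order_bound {A kap lam : ℝ} (hA0 : 0 < A)
    (hA : ∀ m φ, 1 / 2 ≤ X1 A m φ ∧ X1 A m φ ≤ 3 / 2) :
    ∃ M : ℝ, 0 ≤ M ∧ ∀ m φ, |m| ≤ 3 → |T1 A kap lam m φ| ≤ M ∧ |T0 A m φ| ≤ M := by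
  obtain ⟨C3, hC3, hE3⟩ := exists_bound_E 3
  obtain ⟨D3, hD3, hZ3⟩ := exists_bound_Z 3
  obtain ⟨C4, hC4, hE4⟩ := exists_bound_E 4
  obtain ⟨D4, hD4, hZ4⟩ := exists_bound_Z 4
  obtain ⟨H0, hH0⟩ := isCompact_Icc.exists_bound_of_continuousOn
    ((contDiff_hh kap lam).continuous.continuousOn (s := Icc (-3:ℝ) 3))
  have hcd : Continuous (deriv (hh kap lam)) := by
    have := (contDiff_iter (contDiff_hh kap lam) 1).continuous
    rwa [iteratedDeriv_one] at this
  obtain ⟨H1, hH1⟩ := isCompact_Icc.exists_bound_of_continuousOn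
    (hcd.continuousOn (s := Icc (-3:ℝ) 3))
  set B2 := A * C3 + A ^ 2 / 16 * D3 with hB2
  set B3 := A * C4 + A ^ 2 / 16 * D4 with hB3
  have hX2 : ∀ m φ, |X2 A m φ| ≤ B2 := by
    intro m φ
    unfold X2
    refine (abs_add_le _ _).trans (add_le_add ?_ ?_)
    · rw [abs_mul]
      exact mul_le_mul (abs_ca_le hA0.le φ) (hE3 m) (abs_nonneg _) hA0.le
    · rw [abs_mul]
      exact mul_le_mul (abs_cb_le φ) (hZ3 m) (abs_nonneg _) (by positivity)
  have hX3 : ∀ m φ, |X3 A m φ| ≤ B3 := by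
    intro m φ
    unfold X3
    refine (abs_add_le _ _).trans (add_le_add ?_ ?_)
    · rw [abs_mul]
      exact mul_le_mul (abs_ca_le hA0.le φ) (hE4 m) (abs_nonneg _) hA0.le
    · rw [abs_mul]
      exact mul_le_mul (abs_cb_le φ) (hZ4 m) (abs_nonneg _) (by positivity)
  have hB2' : 0 ≤ B2 := (abs_nonneg _).trans (hX2 0 0)
  have hB3' : 0 ≤ B3 := (abs_nonneg _).trans (hX3 0 0)
  have hH0' : 0 ≤ H0 := (norm_nonneg _).trans (hH0 0 ⟨by norm_num, by norm_num⟩)
  have hH1' : 0 ≤ H1 := (norm_nonneg _).trans (hH1 0 ⟨by norm_num, by norm_num⟩)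
  refine ⟨(16 * H0 * B2 + 4 * H1) + (20 * B2 ^ 2 + 4 * B3), by positivity, ?_⟩
  intro m φ hm
  have hmI : m ∈ Icc (-3:ℝ) 3 := abs_le.mp hm
  obtain ⟨hXl, hXu⟩ := hA m φ
  have hXp : 0 < X1 A m φ := by linarith
  have p2 : (1:ℝ) / 4 ≤ X1 A m φ ^ 2 := by nlinarith
  have p3 : (1:ℝ) / 8 ≤ X1 A m φ ^ 3 := by
    have := pow_le_pow_left₀ (by norm_num : (0:ℝ) ≤ 1 / 2) hXl 3
    linarith
  have p4 : (1:ℝ) / 16 ≤ X1 A m φ ^ 4 := by
    have := pow_le_pow_left₀ (by norm_num : (0:ℝ) ≤ 1 / 2) hXl 4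
    linarith
  have h0 := hH0 m hmI
  have h1 := hH1 m hmI
  rw [Real.norm_eq_abs] at h0 h1
  have hT1 : |T1 A kap lam m φ| ≤ 16 * H0 * B2 + 4 * H1 := by
    unfold T1
    refine (abs_sub _ _).trans (add_le_add ?_ ?_)
    · rw [abs_div, abs_of_pos (by positivity : 0 < X1 A m φ ^ 3), div_le_iff₀ (by positivity)]
      rw [abs_mul, abs_mul, abs_two]
      have : |hh kap lam m| * |X2 A m φ| ≤ H0 * B2 :=
        mul_le_mul h0 (hX2 m φ) (abs_nonneg _) hH0'
      have h8 : 0 ≤ H0 * B2 := by positivity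
      nlinarith
    · rw [abs_div, abs_of_pos (by positivity : 0 < X1 A m φ ^ 2), div_le_iff₀ (by positivity)]
      nlinarith
  have hT0 : |T0 A m φ| ≤ 20 * B2 ^ 2 + 4 * B3 := by
    unfold T0
    refine (abs_sub _ _).trans (add_le_add ?_ ?_)
    · rw [abs_div, abs_of_pos (by positivity : 0 < X1 A m φ ^ 4), div_le_iff₀ (by positivity)]
      rw [abs_of_nonneg (by positivity)]
      have : X2 A m φ ^ 2 ≤ B2 ^ 2 := by
        rw [← sq_abs]
        exact pow_le_pow_left₀ (abs_nonneg _) (hX2 m φ) 2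
      have h8 : 0 ≤ B2 ^ 2 := by positivity
      nlinarith
    · rw [abs_div, abs_of_pos (by positivity : 0 < 2 * X1 A m φ ^ 3), div_le_iff₀ (by positivity)]
      have := hX3 m φ
      nlinarith
  constructor
  · have : 0 ≤ 20 * B2 ^ 2 + 4 * B3 := by positivity
    linarith
  · have : 0 ≤ 16 * H0 * B2 + 4 * H1 := by positivity
    linarith

/-- Values in the region where the flow is the identity. -/
theorem VL_far {A K kap lam m φ : ℝ} (h : 4 < m ^ 2) :
    VL A K kap lam m φ = K ^ 2 * (hh kap lam m ^ 2 - lam ^ 2) - K * deriv (hh kap lam) m := by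
  have e0 : E m = 0 := E_eq_zero (by linarith)
  have e1 : iteratedDeriv 1 E m = 0 := E_iter_eq_zero (by linarith) (by norm_num)
  have e2 : iteratedDeriv 2 E m = 0 := E_iter_eq_zero (by linarith) (by norm_num)
  have e3 : iteratedDeriv 3 E m = 0 := E_iter_eq_zero (by linarith) (by norm_num)
  have e4 : iteratedDeriv 4 E m = 0 := E_iter_eq_zero (by linarith) (by norm_num)
  have z0 : Z m = 1 := Z_eq_one h.le
  have z1 : iteratedDeriv 1 Z m = 0 := Z_iter_eq_zero_right h (by norm_num)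
  have z2 : iteratedDeriv 2 Z m = 0 := Z_iter_eq_zero_right h (by norm_num)
  have z3 : iteratedDeriv 3 Z m = 0 := Z_iter_eq_zero_right h (by norm_num)
  have z4 : iteratedDeriv 4 Z m = 0 := Z_iter_eq_zero_right h (by norm_num)
  have hX1 : X1 A m φ = 1 := by unfold X1; rw [e2, z2]; ring
  have hX2 : X2 A m φ = 0 := by unfold X2; rw [e3, z3]; ring
  have hX3 : X3 A m φ = 0 := by unfold X3; rw [e4, z4]; ring
  have hXp : Xp A m φ = 0 := by unfold Xp; rw [e1, z1]; ring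
  have hTh : Thp A m φ = 0 := by unfold Thp; rw [e0, z0, e1, z1]; ring
  unfold VL S1 S2
  rw [hX1, hX2, hX3, hXp, hTh]
  ring

theorem VL_zero_far {A K kap lam m φ : ℝ} (h : 4 < |m|) : VL A K kap lam m φ = 0 := by
  have h4 : 4 < m ^ 2 := by
    rw [← sq_abs]
    nlinarith
  rw [VL_far h4]
  rcases lt_abs.mp h with h | h
  · have h1 : hh kap lam m = lam := hh_far h.le
    have h2 : deriv (hh kap lam) m = 0 := by
      have : hh kap lam =ᶠ[𝓝 m] fun _ => lam := by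
        filter_upwards [lt_mem_nhds h] with y hy
        exact hh_far hy.le
      rw [this.deriv_eq]
      simp
    rw [h1, h2]
    ring
  · have h1 : hh kap lam m = -lam := by
      have := hh_neg kap lam (-m)
      rw [neg_neg, hh_far h.le] at this
      exact this
    have h2 : deriv (hh kap lam) m = 0 := by
      rw [← deriv_hh_neg]
      have : hh kap lam =ᶠ[𝓝 (-m)] fun _ => lam := by
        filter_upwards [lt_mem_nhds h] with y hy
        exact hh_far hy.le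
      rw [this.deriv_eq]
      simp
    rw [h1, h2]
    ring

/-- Choice of the parameters. -/
theorem exists_parameters {A : ℝ} (hA0 : 0 < A) (hA1 : A ≤ 1)
    (hA : ∀ m φ, 1 / 2 ≤ X1 A m φ ∧ X1 A m φ ≤ 3 / 2) :
    ∃ K kap lam : ℝ, 0 < K ∧ 0 < kap ∧ 0 < lam ∧ (∀ m φ, 0 ≤ VL A K kap lam m φ) ∧
      0 < VL A K kap lam 0 0 := by
  set lam := A / 4 with hlam
  set kap := 6 / G 3 with hkap
  have hG3 := G_pos_three
  have hkap0 : 0 < kap := by positivity
  have hlam0 : 0 < lam := by positivity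
  obtain ⟨M, hM0, hM⟩ := exists_lower_order_bound (kap := kap) (lam := lam) hA0 hA
  set K := 64 * M / A ^ 2 + 1 / (2 * lam) + 1 with hK
  have hK1 : 1 ≤ K := by
    have h1 : 0 ≤ 64 * M / A ^ 2 := by positivity
    have h2 : 0 ≤ 1 / (2 * lam) := by positivity
    linarith
  have hK2 : 1 / (2 * lam) ≤ K := by
    have h1 : 0 ≤ 64 * M / A ^ 2 := by positivity
    linarith
  have hK3 : 64 * M < K * A ^ 2 := by
    have h1 : 64 * M / A ^ 2 < K := by
      have h2 : 0 ≤ 1 / (2 * lam) := by positivity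
      linarith
    rwa [div_lt_iff₀ (by positivity)] at h1
  have hin : ∀ m φ, |m| ≤ 3 → 0 < VL A K kap lam m φ := by
    intro m φ hm
    obtain ⟨hXl, hXu⟩ := hA m φ
    have hXp : 0 < X1 A m φ := by linarith
    rw [VL_expand A K kap lam m φ hXp.ne']
    obtain ⟨hT1, hT0⟩ := hM m φ hm
    have hT1' := (abs_le.mp hT1).1
    have hT0' := (abs_le.mp hT0).1
    have hW := WW_ge (lam := lam) (m := m) (φ := φ) hA0 hA1
    have hh2 := hh_sq_ge hkap0.le hlam0.le hm
    have hkG : kap * G 3 = 6 := by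
      rw [hkap]
      field_simp
    rw [hkG] at hh2
    have h1 : 16 * |m| ^ 2 ≤ hh kap lam m ^ 2 / X1 A m φ ^ 2 := by
      rw [le_div_iff₀ (by positivity)]
      have h2 : X1 A m φ ^ 2 ≤ 9 / 4 := by nlinarith
      have h3 : 0 ≤ |m| ^ 2 := by positivity
      nlinarith
    have h4 : A ^ 2 / 32 ≤ WW A lam m φ + hh kap lam m ^ 2 / X1 A m φ ^ 2 := by
      have h5 : lam ^ 2 = A ^ 2 / 16 := by rw [hlam]; ring
      rw [h5] at hW
      nlinarith [sq_nonneg (A - 16 * |m|)]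
    have h6 : K ^ 2 * (A ^ 2 / 32) ≤ K ^ 2 * (WW A lam m φ + hh kap lam m ^ 2 / X1 A m φ ^ 2) :=
      mul_le_mul_of_nonneg_left h4 (by positivity)
    have h7 : -(K * M) ≤ K * T1 A kap lam m φ := by nlinarith
    have h8 : K * (64 * M) < K * (K * A ^ 2) := mul_lt_mul_of_pos_left hK3 (by linarith)
    nlinarith
  refine ⟨K, kap, lam, by linarith, hkap0, hlam0, ?_, hin 0 0 (by norm_num)⟩
  intro m φ
  rcases le_or_gt |m| 3 with h | h
  · exact (hin m φ h).le
  · have h4 : 4 < m ^ 2 := by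
      rw [← sq_abs]
      nlinarith
    rw [VL_far h4]
    exact tail_nonneg hkap0.le hlam0 hK2 (by linarith)

end Pool.Agent.H.MP_4efd05_mp
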