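import Pool.Agent.H.MP_4efd05_mp.Positivity

/-!
Smoothness, boundedness of all derivatives, and decay.
-/

open Filter Topology Set MeasureTheory
open scoped ContDiff

namespace Pool.Agent.H.MP_4efd05_mp

open Real

/-! ### Smoothness in Lagrangian coordinates -/

section smooth

variable (A K kap lam : ℝ)

theorem contDiff_iterE (k : ℕ) : ContDiff ℝ ∞ (fun p : ℝ × ℝ => iteratedDeriv k E p.1) :=
  (contDiff_iter contDiff_E k).comp contDiff_fst

theorem contDiff_iterZ (k : ℕ) : ContDiff ℝ ∞ (fun p : ℝ × ℝ => iteratedDeriv k Z p.1) :=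
  (contDiff_iter contDiff_Z k).comp contDiff_fst

theorem contDiff_ca : ContDiff ℝ ∞ (fun p : ℝ × ℝ => ca A p.2) := by
  unfold ca
  exact contDiff_const.mul (contDiff_cos.comp contDiff_snd)

theorem contDiff_cb : ContDiff ℝ ∞ (fun p : ℝ × ℝ => cb A p.2) := by
  unfold cb
  exact contDiff_const.mul (contDiff_cos.comp (contDiff_const.mul contDiff_snd))

theorem contDiff_da : ContDiff ℝ ∞ (fun p : ℝ × ℝ => da A p.2) := by
  unfold da
  exact (contDiff_const.mul (contDiff_sin.comp contDiff_snd)).neg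

theorem contDiff_db : ContDiff ℝ ∞ (fun p : ℝ × ℝ => db A p.2) := by
  unfold db
  exact (contDiff_const.mul (contDiff_sin.comp (contDiff_const.mul contDiff_snd))).neg

theorem contDiff_X : ContDiff ℝ ∞ (fun p : ℝ × ℝ => X A p.1 p.2) := by
  unfold X
  exact (contDiff_fst.add ((contDiff_ca A).mul (contDiff_iterE 1))).add
    ((contDiff_cb A).mul (contDiff_iterZ 1))

theorem contDiff_X1 : ContDiff ℝ ∞ (fun p : ℝ × ℝ => X1 A p.1 p.2) := by
  unfold X1
  exact (contDiff_const.add ((contDiff_ca A).mul (contDiff_iterE 2))).add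
    ((contDiff_cb A).mul (contDiff_iterZ 2))

theorem contDiff_X2 : ContDiff ℝ ∞ (fun p : ℝ × ℝ => X2 A p.1 p.2) := by
  unfold X2
  exact ((contDiff_ca A).mul (contDiff_iterE 3)).add ((contDiff_cb A).mul (contDiff_iterZ 3))

theorem contDiff_X3 : ContDiff ℝ ∞ (fun p : ℝ × ℝ => X3 A p.1 p.2) := by
  unfold X3
  exact ((contDiff_ca A).mul (contDiff_iterE 4)).add ((contDiff_cb A).mul (contDiff_iterZ 4))

theorem contDiff_Xp : ContDiff ℝ ∞ (fun p : ℝ × ℝ => Xp A p.1 p.2) := by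
  unfold Xp
  exact ((contDiff_da A).mul (contDiff_iterE 1)).add ((contDiff_db A).mul (contDiff_iterZ 1))

theorem contDiff_E0 : ContDiff ℝ ∞ (fun p : ℝ × ℝ => E p.1) := contDiff_E.comp contDiff_fst

theorem contDiff_Z0 : ContDiff ℝ ∞ (fun p : ℝ × ℝ => Z p.1) := contDiff_Z.comp contDiff_fst

theorem contDiff_Th : ContDiff ℝ ∞ (fun p : ℝ × ℝ => Th A p.1 p.2) := by
  unfold Th
  exact (((((contDiff_da A).mul contDiff_E0).add
    ((contDiff_db A).mul (contDiff_Z0.sub contDiff_const))).add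
    ((((contDiff_ca A).mul (contDiff_da A)).mul ((contDiff_iterE 1).pow 2)).div_const 2)).add
    ((((contDiff_cb A).mul (contDiff_db A)).mul ((contDiff_iterZ 1).pow 2)).div_const 2)).div_const 2

theorem contDiff_Thp : ContDiff ℝ ∞ (fun p : ℝ × ℝ => Thp A p.1 p.2) := by
  unfold Thp
  exact (((((contDiff_ca A).neg.mul contDiff_E0).add
    ((contDiff_const.mul (contDiff_cb A)).neg.mul (contDiff_Z0.sub contDiff_const))).add
    (((((contDiff_da A).mul (contDiff_da A)).add ((contDiff_ca A).mul (contDiff_ca A).neg)).mul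
      ((contDiff_iterE 1).pow 2)).div_const 2)).add
    (((((contDiff_db A).mul (contDiff_db A)).add ((contDiff_cb A).mul
      (contDiff_const.mul (contDiff_cb A)).neg)).mul
      ((contDiff_iterZ 1).pow 2)).div_const 2)).div_const 2

variable {A}

theorem contDiff_S0 (hA : ∀ m φ, 1 / 2 ≤ X1 A m φ) :
    ContDiff ℝ ∞ (fun p : ℝ × ℝ => S0 A K kap lam p.1 p.2) := by
  unfold S0
  refine ((contDiff_const.mul ((contDiff_gg kap lam).comp contDiff_fst)).neg).sub
    (ContDiff.div_const ((contDiff_X1 A).log ?_) 2)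
  intro p h
  have := hA p.1 p.2
  rw [h] at this
  norm_num at this

theorem contDiff_S1 (hA : ∀ m φ, 1 / 2 ≤ X1 A m φ) :
    ContDiff ℝ ∞ (fun p : ℝ × ℝ => S1 A K kap lam p.1 p.2) := by
  unfold S1
  refine ((contDiff_const.mul ((contDiff_hh kap lam).comp contDiff_fst)).neg).sub
    ((contDiff_X2 A).div (contDiff_const.mul (contDiff_X1 A)) ?_)
  intro p h
  have := hA p.1 p.2
  nlinarith

theorem contDiff_S2 (hA : ∀ m φ, 1 / 2 ≤ X1 A m φ) :
    ContDiff ℝ ∞ (fun p : ℝ × ℝ => S2 A K kap lam p.1 p.2) := by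
  unfold S2
  have hd : ContDiff ℝ ∞ (deriv (hh kap lam)) := by
    have := contDiff_iter (contDiff_hh kap lam) 1
    rwa [iteratedDeriv_one] at this
  refine (((contDiff_const.mul (hd.comp contDiff_fst)).neg).sub
    ((contDiff_X3 A).div (contDiff_const.mul (contDiff_X1 A)) ?_)).add
    (((contDiff_X2 A).pow 2).div (contDiff_const.mul ((contDiff_X1 A).pow 2)) ?_)
  · intro p h
    have := hA p.1 p.2
    nlinarith
  · intro p h
    have := hA p.1 p.2
    nlinarith

theorem contDiff_VL (hA : ∀ m φ, 1 / 2 ≤ X1 A m φ) :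
    ContDiff ℝ ∞ (fun p : ℝ × ℝ => VL A K kap lam p.1 p.2) := by
  unfold VL
  have h0 : ∀ p : ℝ × ℝ, X1 A p.1 p.2 ≠ 0 := by
    intro p h
    have := hA p.1 p.2
    rw [h] at this
    norm_num at this
  refine ((contDiff_const.sub (contDiff_const.mul (contDiff_Thp A))).add
    ((contDiff_const.mul ((contDiff_Xp A).pow 2)).div_const 4)).add
    ((((contDiff_S2 K kap lam hA).sub
      (((contDiff_S1 K kap lam hA).mul (contDiff_X2 A)).div (contDiff_X1 A) h0)).add
      ((contDiff_S1 K kap lam hA).pow 2)).div ((contDiff_X1 A).pow 2) ?_)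
  intro p
  exact pow_ne_zero 2 (h0 p)

end smooth

variable {A K kap lam : ℝ} {Y : ℝ → ℝ → ℝ}

theorem contDiff_YK (hYs : ContDiff ℝ ∞ (fun p : ℝ × ℝ => Y p.1 p.2)) :
    ContDiff ℝ ∞ (fun p : ℝ × ℝ => ((Y p.1 (K * p.2), K * p.2) : ℝ × ℝ)) :=
  (hYs.comp (contDiff_fst.prodMk (contDiff_const.mul contDiff_snd))).prodMk
    (contDiff_const.mul contDiff_snd)

theorem contDiff_Vpot (hA : ∀ m φ, 1 / 2 ≤ X1 A m φ)
    (hYs : ContDiff ℝ ∞ (fun p : ℝ × ℝ => Y p.1 p.2)) :
    ContDiff ℝ ∞ (fun p : ℝ × ℝ => Vpot A K kap lam Y p.1 p.2) := by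
  have h1 := contDiff_VL (A := A) K kap lam hA
  have h2 := contDiff_YK (K := K) hYs
  have h3 := h1.comp h2
  have h4 : (fun p : ℝ × ℝ => Vpot A K kap lam Y p.1 p.2)
      = (fun p : ℝ × ℝ => VL A K kap lam p.1 p.2) ∘
        (fun p : ℝ × ℝ => ((Y p.1 (K * p.2), K * p.2) : ℝ × ℝ)) := by
    ext p
    simp only [Vpot, Function.comp]
  rw [h4]
  exact h3

theorem contDiff_psi (hA : ∀ m φ, 1 / 2 ≤ X1 A m φ)
    (hYs : ContDiff ℝ ∞ (fun p : ℝ × ℝ => Y p.1 p.2)) :
    ContDiff ℝ ∞ (fun p : ℝ × ℝ => psi A K kap lam Y p.1 p.2) := by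
  unfold psi
  have hYK := contDiff_YK (K := K) hYs
  have h1 : ContDiff ℝ ∞ (fun p : ℝ × ℝ => S0 A K kap lam (Y p.1 (K * p.2)) (K * p.2)) := by
    have h := (contDiff_S0 (A := A) K kap lam hA).comp hYK
    simpa only [Function.comp_def] using h
  have h2 : ContDiff ℝ ∞ (fun p : ℝ × ℝ => Th A (Y p.1 (K * p.2)) (K * p.2)) := by
    have h := (contDiff_Th A).comp hYK
    simpa only [Function.comp_def] using h
  have h3 : ContDiff ℝ ∞ (fun p : ℝ × ℝ =>
      K ^ 2 * lam ^ 2 * p.2 + K * Th A (Y p.1 (K * p.2)) (K * p.2)) :=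
    (contDiff_const.mul contDiff_snd).add (contDiff_const.mul h2)
  have h4 : ContDiff ℝ ∞ (fun r : ℝ => (r : ℂ)) := Complex.ofRealCLM.contDiff
  exact ((h4.comp h1).add (contDiff_const.mul (h4.comp h3))).cexp

/-! ### Support, periodicity and bounded derivatives -/

theorem X_far (A : ℝ) {m φ : ℝ} (h : 4 < m ^ 2) : X A m φ = m := by
  unfold X
  rw [E_iter_eq_zero (by linarith) le_rfl, Z_iter_eq_zero_right h le_rfl]
  ring

theorem Y_far (hYX : ∀ m φ, Y (X A m φ) φ = m) {x φ : ℝ} (h : 4 < x ^ 2) : Y x φ = x := by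
  have := hYX x φ
  rwa [X_far A h] at this

theorem Vpot_far (hYX : ∀ m φ, Y (X A m φ) φ = m) {x t : ℝ} (h : 4 < |x|) :
    Vpot A K kap lam Y x t = 0 := by
  have h4 : 4 < x ^ 2 := by
    rw [← sq_abs]
    nlinarith
  unfold Vpot
  rw [Y_far hYX h4, VL_zero_far h]

theorem X_periodic (A m φ : ℝ) : X A m (φ + 2 * π) = X A m φ := by
  unfold X ca cb
  rw [cos_add_two_pi, show 2 * (φ + 2 * π) = 2 * φ + 2 * π + 2 * π by ring, cos_add_two_pi,
    cos_add_two_pi]

theorem Y_periodic (hYX : ∀ m φ, Y (X A m φ) φ = m) (hXY : ∀ x φ, X A (Y x φ) φ = x) (x φ : ℝ) :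
    Y x (φ + 2 * π) = Y x φ := by
  have h := hYX (Y x φ) (φ + 2 * π)
  rwa [X_periodic, hXY] at h

theorem ca_periodic (A φ : ℝ) : ca A (φ + 2 * π) = ca A φ := by
  unfold ca
  rw [cos_add_two_pi]

theorem cb_periodic (A φ : ℝ) : cb A (φ + 2 * π) = cb A φ := by
  unfold cb
  rw [show 2 * (φ + 2 * π) = 2 * φ + 2 * π + 2 * π by ring, cos_add_two_pi, cos_add_two_pi]

theorem da_periodic (A φ : ℝ) : da A (φ + 2 * π) = da A φ := by
  unfold da
  rw [sin_add_two_pi]

theorem db_periodic (A φ : ℝ) : db A (φ + 2 * π) = db A φ := by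
  unfold db
  rw [show 2 * (φ + 2 * π) = 2 * φ + 2 * π + 2 * π by ring, sin_add_two_pi, sin_add_two_pi]

theorem VL_periodic (A K kap lam m φ : ℝ) :
    VL A K kap lam m (φ + 2 * π) = VL A K kap lam m φ := by
  unfold VL S1 S2 X1 X2 X3 Xp Thp
  rw [ca_periodic, cb_periodic, da_periodic, db_periodic]

theorem Vpot_periodic (hK : K ≠ 0) (hYX : ∀ m φ, Y (X A m φ) φ = m)
    (hXY : ∀ x φ, X A (Y x φ) φ = x) (x t : ℝ) :
    Vpot A K kap lam Y x (t + 2 * π / K) = Vpot A K kap lam Y x t := by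
  unfold Vpot
  have : K * (t + 2 * π / K) = K * t + 2 * π := by
    field_simp
  rw [this, Y_periodic hYX hXY, VL_periodic]

/-- a smooth function on the plane which is periodic in `t` and vanishes for `|x| > 4` has all
derivatives bounded. -/
theorem bounded_derivatives {F : ℝ × ℝ → ℝ} (hF : ContDiff ℝ ∞ F) {T : ℝ} (hT : 0 < T)
    (hper : ∀ p : ℝ × ℝ, F (p + (0, T)) = F p) (hfar : ∀ p : ℝ × ℝ, 4 < |p.1| → F p = 0) (k : ℕ) :
    ∃ C : ℝ, ∀ p, ‖iteratedFDeriv ℝ k F p‖ ≤ C := by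
  have hc : Continuous (fun p => iteratedFDeriv ℝ k F p) :=
    hF.continuous_iteratedFDeriv (by exact_mod_cast le_top)
  have hcomp : IsCompact (Icc (-5:ℝ) 5 ×ˢ Icc (0:ℝ) T) := isCompact_Icc.prod isCompact_Icc
  obtain ⟨C, hC⟩ := hcomp.exists_bound_of_continuousOn hc.continuousOn
  have hperk : ∀ p : ℝ × ℝ, iteratedFDeriv ℝ k F (p + (0, T)) = iteratedFDeriv ℝ k F p := by
    intro p
    have h1 : (fun q => F (q + (0, T))) = F := funext hper
    have h2 := iteratedFDeriv_comp_add_right (𝕜 := ℝ) (f := F) k ((0, T) : ℝ × ℝ) p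
    rw [h1] at h2
    exact h2.symm
  have hpern : ∀ (n : ℕ) (p : ℝ × ℝ),
      iteratedFDeriv ℝ k F (p + (0, n * T)) = iteratedFDeriv ℝ k F p := by
    intro n
    induction n with
    | zero =>
      intro p
      have : p + (0, ((0 : ℕ) : ℝ) * T) = p := by
        ext <;> simp
      rw [this]
    | succ n ih =>
      intro p
      have : p + (0, ((n + 1 : ℕ) : ℝ) * T) = (p + (0, n * T)) + (0, T) := by
        ext <;> simp
        ring
      rw [this, hperk, ih]
  have hperz : ∀ (n : ℤ) (p : ℝ × ℝ),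
      iteratedFDeriv ℝ k F (p + (0, n * T)) = iteratedFDeriv ℝ k F p := by
    intro n p
    rcases Int.eq_nat_or_neg n with ⟨m, rfl | rfl⟩
    · exact_mod_cast hpern m p
    · have := hpern m (p + (0, ((-(m:ℤ) : ℤ) : ℝ) * T))
      rw [← this]
      congr 1
      ext <;> simp
  refine ⟨max C 0, fun p => ?_⟩
  rcases le_or_gt |p.1| 5 with h | h
  · -- reduce the time
    set n : ℤ := -⌊p.2 / T⌋ with hn
    rw [← hperz n p]
    refine (hC _ ⟨?_, ?_⟩).trans (le_max_left _ _)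
    · simpa using abs_le.mp h
    · have h1 : (⌊p.2 / T⌋ : ℝ) ≤ p.2 / T := Int.floor_le _
      have h2 : p.2 / T < ⌊p.2 / T⌋ + 1 := Int.lt_floor_add_one _
      rw [le_div_iff₀ hT] at h1
      rw [div_lt_iff₀ hT] at h2
      simp only [hn, Prod.snd_add, Int.cast_neg, mem_Icc]
      constructor <;> nlinarith
  · have h0 : F =ᶠ[𝓝 p] fun _ => 0 := by
      have ho : IsOpen {q : ℝ × ℝ | 4 < |q.1|} := isOpen_lt continuous_const continuous_fst.abs
      filter_upwards [ho.mem_nhds (show 4 < |p.1| by linarith)] with q hq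
      exact hfar q hq
    have h1 := h0.iteratedFDeriv ℝ k
    rw [h1.eq_of_nhds]
    have : iteratedFDeriv ℝ k (fun _ : ℝ × ℝ => (0:ℝ)) p = 0 := by
      have := iteratedFDeriv_fun_zero (𝕜 := ℝ) (E := ℝ × ℝ) (F := ℝ) (n := k)
      exact congrFun this p
    rw [this, norm_zero]
    exact le_max_right _ _

/-! ### Decay -/

theorem gg_zero (kap lam : ℝ) : gg kap lam 0 = 0 := by
  unfold gg
  simp

theorem gg_neg (kap lam m : ℝ) : gg kap lam (-m) = gg kap lam m := by
  have h : ∀ m, HasDerivAt (fun m => gg kap lam (-m) - gg kap lam m) 0 m := by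
    intro m
    have h1 := ((hasDerivAt_gg kap lam (-m)).comp m (hasDerivAt_neg m)).fun_sub
      (hasDerivAt_gg kap lam m)
    refine h1.congr_deriv ?_
    rw [hh_neg]
    ring
  have h2 := is_const_of_deriv_eq_zero (fun m => (h m).differentiableAt) (fun m => (h m).deriv) m 0
  simp only [neg_zero, sub_self] at h2
  linarith

theorem hh_nonneg {kap lam m : ℝ} (hk : 0 ≤ kap) (hl : 0 ≤ lam) (hm : 0 ≤ m) :
    0 ≤ hh kap lam m := by
  unfold hh
  have h1 := G_nonneg m
  have h2 := St_nonneg hm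
  positivity

theorem gg_nonneg {kap lam m : ℝ} (hk : 0 ≤ kap) (hl : 0 ≤ lam) : 0 ≤ gg kap lam m := by
  wlog hm : 0 ≤ m with H
  · have := H (m := -m) hk hl (by linarith)
    rwa [gg_neg] at this
  unfold gg
  apply intervalIntegral.integral_nonneg hm
  intro u hu
  exact hh_nonneg hk hl hu.1

theorem gg_ge {kap lam m : ℝ} (hk : 0 ≤ kap) (hl : 0 ≤ lam) : lam * (|m| - 1) ≤ gg kap lam m := by
  wlog hm : 0 ≤ m with H
  · have := H (m := -m) hk hl (by linarith)
    rwa [gg_neg, abs_neg] at this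
  rw [abs_of_nonneg hm]
  rcases le_or_gt m 1 with h | h
  · have h1 := gg_nonneg (m := m) hk hl
    nlinarith
  · have hmono : MonotoneOn (fun m => gg kap lam m - lam * m) (Ici 1) := by
      apply monotoneOn_of_deriv_nonneg (convex_Ici 1)
      · exact ((contDiff_gg kap lam).continuous.sub (continuous_const.mul continuous_id)).continuousOn
      · intro x _
        exact ((hasDerivAt_gg kap lam x).fun_sub
          ((hasDerivAt_id' x).const_mul lam)).differentiableAt.differentiableWithinAt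
      · intro x hx
        rw [interior_Ici] at hx
        have hx : 1 < x := hx
        rw [((hasDerivAt_gg kap lam x).fun_sub ((hasDerivAt_id' x).const_mul lam)).deriv]
        unfold hh
        rw [St_eq_one hx.le]
        have := mul_nonneg hk (mul_nonneg (by linarith : (0:ℝ) ≤ x) (G_nonneg x))
        linarith
    have h1 := hmono (mem_Ici.mpr le_rfl) (mem_Ici.mpr h.le) h.le
    simp only at h1
    have h2 := gg_nonneg (m := 1) hk hl
    linarith

theorem exists_Y_bound {A : ℝ} (hA0 : 0 < A) (hXY : ∀ x φ, X A (Y x φ) φ = x) :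
    ∃ C : ℝ, 0 ≤ C ∧ ∀ x φ, |x| - C ≤ |Y x φ| := by
  obtain ⟨C1, hC1, hE1⟩ := exists_bound_E 1
  obtain ⟨D1, hD1, hZ1⟩ := exists_bound_Z 1
  refine ⟨A * C1 + A ^ 2 / 16 * D1, by positivity, fun x φ => ?_⟩
  have h := hXY x φ
  have h1 : |ca A φ * iteratedDeriv 1 E (Y x φ)| ≤ A * C1 := by
    rw [abs_mul]
    exact mul_le_mul (abs_ca_le hA0.le φ) (hE1 _) (abs_nonneg _) hA0.le
  have h2 : |cb A φ * iteratedDeriv 1 Z (Y x φ)| ≤ A ^ 2 / 16 * D1 := by
    rw [abs_mul]
    exact mul_le_mul (abs_cb_le φ) (hZ1 _) (abs_nonneg _) (by positivity)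
  have h3 : |x| ≤ |Y x φ| + |ca A φ * iteratedDeriv 1 E (Y x φ)|
      + |cb A φ * iteratedDeriv 1 Z (Y x φ)| := by
    conv_lhs => rw [← h]
    unfold X
    exact (abs_add_le _ _).trans (add_le_add (abs_add_le _ _) le_rfl)
  linarith

theorem norm_psi (x t : ℝ) : ‖psi A K kap lam Y x t‖ = exp (S0 A K kap lam (Y x (K * t)) (K * t)) := by
  unfold psi
  rw [Complex.norm_exp]
  congr 1
  simp only [Complex.add_re, Complex.ofReal_re, Complex.mul_re, Complex.I_re, Complex.I_im,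
    Complex.ofReal_im]
  ring

theorem exp_neg_le {c : ℝ} (hc : 0 < c) (x : ℝ) :
    exp (-(c * |x|)) ≤ (2 + 48 / c ^ 4) / (1 + x ^ 2) ^ 2 := by
  rw [le_div_iff₀ (by positivity), exp_neg, inv_mul_le_iff₀ (exp_pos _)]
  have h0 : 0 ≤ c * |x| := by positivity
  have h1 : 1 ≤ exp (c * |x|) := one_le_exp h0
  have h2 := pow_div_factorial_le_exp (c * |x|) h0 4
  have h3 : ((Nat.factorial 4 : ℕ) : ℝ) = 24 := by norm_num [Nat.factorial]
  rw [h3] at h2
  have h4 : (c * |x|) ^ 4 = c ^ 4 * x ^ 4 := by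
    rw [mul_pow]
    congr 1
    have : |x| ^ 4 = (|x| ^ 2) ^ 2 := by ring
    rw [this, sq_abs]
    ring
  rw [h4] at h2
  have h5 : x ^ 4 ≤ 24 / c ^ 4 * exp (c * |x|) := by
    have hc4 : 0 < c ^ 4 := by positivity
    rw [div_mul_eq_mul_div, le_div_iff₀ hc4]
    linarith
  have h6 : (1 + x ^ 2) ^ 2 ≤ 2 + 2 * x ^ 4 := by nlinarith [sq_nonneg (x ^ 2 - 1)]
  have h7 : 48 / c ^ 4 = 2 * (24 / c ^ 4) := by ring
  rw [h7]
  nlinarith

theorem exists_psi_bound (hA0 : 0 < A) (hA : ∀ m φ, 1 / 2 ≤ X1 A m φ) (hK : 0 < K)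
    (hk : 0 ≤ kap) (hl : 0 < lam) (hXY : ∀ x φ, X A (Y x φ) φ = x) :
    ∃ C : ℝ, 0 ≤ C ∧ ∀ x t, ‖psi A K kap lam Y x t‖ ≤ C / (1 + x ^ 2) ^ 2 := by
  obtain ⟨CY, hCY, hY⟩ := exists_Y_bound (A := A) hA0 hXY
  have hKl : 0 < K * lam := by positivity
  refine ⟨exp (K * lam * (CY + 1)) * exp 1 * (2 + 48 / (K * lam) ^ 4), by positivity, ?_⟩
  intro x t
  rw [norm_psi]
  have h1 : S0 A K kap lam (Y x (K * t)) (K * t)
      ≤ K * lam * (CY + 1) + 1 + -(K * lam * |x|) := by
    unfold S0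
    have h2 := gg_ge (m := Y x (K * t)) hk hl.le
    have h3 := hY x (K * t)
    have h4 : -1 ≤ log (X1 A (Y x (K * t)) (K * t)) := by
      have h5 := hA (Y x (K * t)) (K * t)
      have h6 : log (1 / 2) ≤ log (X1 A (Y x (K * t)) (K * t)) :=
        log_le_log (by norm_num) h5
      have h7 : -1 ≤ log (1 / 2) := by
        rw [one_div, log_inv]
        have := log_two_lt_d9
        linarith
      linarith
    have h5 : K * (lam * (|x| - CY - 1)) ≤ K * gg kap lam (Y x (K * t)) := by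
      apply mul_le_mul_of_nonneg_left _ hK.le
      refine le_trans ?_ h2
      apply mul_le_mul_of_nonneg_left _ hl.le
      linarith
    nlinarith
  calc exp (S0 A K kap lam (Y x (K * t)) (K * t))
      ≤ exp (K * lam * (CY + 1) + 1 + -(K * lam * |x|)) := exp_le_exp.mpr h1
    _ = exp (K * lam * (CY + 1)) * exp 1 * exp (-(K * lam * |x|)) := by
        rw [exp_add, exp_add]
    _ ≤ exp (K * lam * (CY + 1)) * exp 1 * ((2 + 48 / (K * lam) ^ 4) / (1 + x ^ 2) ^ 2) :=
        mul_le_mul_of_nonneg_left (exp_neg_le hKl x) (by positivity)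
    _ = _ := by ring

end Pool.Agent.H.MP_4efd05_mp
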